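import Pool.Agent.Q196.MB.Basic

/-!
# The algebra of a measure space
-/

namespace Pool.Agent.Q196.MB

open MeasureTheory
open scoped ENNReal NNReal

variable {X : Type*} [MeasurableSpace X]

/-- The operators on `L²(X, μ)` with bounded support expansion, as a unital `*`-algebra. -/
def bse (μ : Measure X) : StarSubalgebra ℂ (Lp ℂ 2 μ →L[ℂ] Lp ℂ 2 μ) where
  carrier := {a | ∃ l, Expands μ l a ∧ Expands μ l (star a)}
  mul_mem' := by
    rintro a b ⟨l, h1, h2⟩ ⟨m, h3, h4⟩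
    refine ⟨l * m, h1.mul h3, ?_⟩
    rw [star_mul, mul_comm l m]
    exact h4.mul h2
  add_mem' := by
    rintro a b ⟨l, h1, h2⟩ ⟨m, h3, h4⟩
    refine ⟨l + m, h1.add h3, ?_⟩
    rw [star_add]
    exact h2.add h4
  algebraMap_mem' := by
    intro c
    refine ⟨1, ?_, ?_⟩
    · rw [Algebra.algebraMap_eq_smul_one]
      exact expands_smul_one c
    · rw [Algebra.algebraMap_eq_smul_one, star_smul, star_one]
      exact expands_smul_one _
  star_mem' := by
    rintro a ⟨l, h1, h2⟩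
    exact ⟨l, h2, by rwa [star_star]⟩

/-- The norm closure `C*_u(X, 𝒱_μ)` of the operators with bounded support expansion. -/
noncomputable def Cu (μ : Measure X) : StarSubalgebra ℂ (Lp ℂ 2 μ →L[ℂ] Lp ℂ 2 μ) :=
  (bse μ).topologicalClosure

variable {μ : Measure X}

theorem isClosed_Cu : IsClosed (Cu μ : Set (Lp ℂ 2 μ →L[ℂ] Lp ℂ 2 μ)) :=
  (bse μ).isClosed_topologicalClosure

theorem mem_Cu {a : Lp ℂ 2 μ →L[ℂ] Lp ℂ 2 μ} {l : ℝ≥0} (h1 : Expands μ l a)
    (h2 : Expands μ l (star a)) : a ∈ Cu μ :=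
  (bse μ).le_topologicalClosure ⟨l, h1, h2⟩

theorem mulOp_mem {φ : X → ℂ} (hφ : IsBddMeas φ) : mulOp μ φ ∈ Cu μ := by
  refine mem_Cu (expands_mulOp hφ) ?_
  rw [star_mulOp hφ]
  exact expands_mulOp hφ.conj

end Pool.Agent.Q196.MB
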