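import Mathlib

/-!
# Support expansion algebras

`(X, μ)` is a measure space, `H = L²(X, μ)` (complex valued).  `mulOp μ φ` is the operator of
multiplication by the bounded measurable function `φ`, and `chi μ A` is the multiplication by the
indicator function of the measurable set `A`: these are the projections of `L_∞(X, μ)`.
-/

namespace Pool.Agent.Q196.MB

open MeasureTheory
open scoped ENNReal NNReal

variable {X : Type*} [MeasurableSpace X] {μ : Measure X}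

/-- A bounded measurable function. -/
def IsBddMeas (φ : X → ℂ) : Prop := Measurable φ ∧ ∃ C : ℝ, ∀ x, ‖φ x‖ ≤ C

theorem memLp_mul {φ : X → ℂ} (hφ : IsBddMeas φ) {f : X → ℂ} (hf : MemLp f 2 μ) :
    MemLp (fun x => φ x * f x) 2 μ := by
  obtain ⟨hm, C, hC⟩ := hφ
  refine MemLp.of_le_mul (g := f) (c := C) hf (hm.aestronglyMeasurable.mul hf.1)
    (ae_of_all _ fun x => ?_)
  rw [norm_mul]
  gcongr
  exact hC x

open Classical in
/-- Multiplication by `φ` on `L²(X, μ)`; it is `0` by convention if `φ` is not bounded and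
measurable. -/
noncomputable def mulOp (μ : Measure X) (φ : X → ℂ) : Lp ℂ 2 μ →L[ℂ] Lp ℂ 2 μ :=
  if hφ : IsBddMeas φ then
    LinearMap.mkContinuous
      { toFun := fun f => (memLp_mul hφ (Lp.memLp f)).toLp _
        map_add' := fun f g => by
          rw [← MemLp.toLp_add]
          apply MemLp.toLp_congr
          filter_upwards [Lp.coeFn_add f g] with x hx
          change φ x * (f + g : Lp ℂ 2 μ) x = φ x * f x + φ x * g x
          rw [hx, Pi.add_apply, mul_add]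
        map_smul' := fun c f => by
          rw [RingHom.id_apply, ← MemLp.toLp_const_smul]
          apply MemLp.toLp_congr
          filter_upwards [Lp.coeFn_smul c f] with x hx
          simp [hx, mul_left_comm] }
      hφ.2.choose
      (fun f => by
        apply Lp.norm_le_mul_norm_of_ae_le_mul
        filter_upwards [MemLp.coeFn_toLp (memLp_mul hφ (Lp.memLp f))] with x hx
        change ‖((memLp_mul hφ (Lp.memLp f)).toLp _ : X → ℂ) x‖ ≤ _
        rw [hx, norm_mul]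
        gcongr
        exact hφ.2.choose_spec x)
  else 0

theorem coeFn_mulOp {φ : X → ℂ} (hφ : IsBddMeas φ) (f : Lp ℂ 2 μ) :
    mulOp μ φ f =ᵐ[μ] fun x => φ x * f x := by
  rw [mulOp, dif_pos hφ]
  exact MemLp.coeFn_toLp (memLp_mul hφ (Lp.memLp f))

/-- The projection of `L_∞(X, μ)` given by the indicator function of the set `A`. -/
noncomputable def chi (μ : Measure X) (A : Set X) : Lp ℂ 2 μ →L[ℂ] Lp ℂ 2 μ :=
  mulOp μ (A.indicator fun _ => 1)

theorem isBddMeas_ind {A : Set X} (hA : MeasurableSet A) :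
    IsBddMeas (A.indicator fun _ => (1 : ℂ)) := by
  refine ⟨measurable_const.indicator hA, 1, fun x => ?_⟩
  by_cases hx : x ∈ A <;> simp [hx]

theorem IsBddMeas.mul {φ ψ : X → ℂ} (hφ : IsBddMeas φ) (hψ : IsBddMeas ψ) :
    IsBddMeas (fun x => φ x * ψ x) := by
  obtain ⟨h1, C, hC⟩ := hφ
  obtain ⟨h2, D, hD⟩ := hψ
  refine ⟨h1.mul h2, C * D, fun x => ?_⟩
  rw [norm_mul]
  exact mul_le_mul (hC x) (hD x) (norm_nonneg _) ((norm_nonneg _).trans (hC x))

theorem IsBddMeas.conj {φ : X → ℂ} (hφ : IsBddMeas φ) :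
    IsBddMeas (fun x => (starRingEnd ℂ) (φ x)) := by
  obtain ⟨h1, C, hC⟩ := hφ
  exact ⟨Complex.continuous_conj.measurable.comp h1, C, fun x => by simpa using hC x⟩

theorem coeFn_chi {A : Set X} (hA : MeasurableSet A) (f : Lp ℂ 2 μ) :
    chi μ A f =ᵐ[μ] fun x => A.indicator (fun _ => (1 : ℂ)) x * f x :=
  coeFn_mulOp (isBddMeas_ind hA) f

theorem mulOp_mul {φ ψ : X → ℂ} (hφ : IsBddMeas φ) (hψ : IsBddMeas ψ) :
    mulOp μ φ * mulOp μ ψ = mulOp μ (fun x => φ x * ψ x) := by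
  ext1 f
  apply Lp.ext
  have h1 := coeFn_mulOp hφ (mulOp μ ψ f)
  have h2 := coeFn_mulOp hψ f
  have h3 := coeFn_mulOp (hφ.mul hψ) f
  filter_upwards [h1, h2, h3] with x h1 h2 h3
  rw [ContinuousLinearMap.mul_apply, h1, h2, h3, mul_assoc]

theorem star_mulOp {φ : X → ℂ} (hφ : IsBddMeas φ) :
    star (mulOp μ φ) = mulOp μ (fun x => (starRingEnd ℂ) (φ x)) := by
  rw [ContinuousLinearMap.star_eq_adjoint]
  symm
  rw [ContinuousLinearMap.eq_adjoint_iff]
  intro f g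
  rw [L2.inner_def, L2.inner_def]
  apply integral_congr_ae
  filter_upwards [coeFn_mulOp hφ g, coeFn_mulOp hφ.conj f] with x h1 h2
  rw [h1, h2]
  simp only [RCLike.inner_apply, map_mul, Complex.conj_conj]
  ring

theorem chi_mul_chi {A B : Set X} (hA : MeasurableSet A) (hB : MeasurableSet B) :
    chi μ A * chi μ B = chi μ (A ∩ B) := by
  rw [chi, chi, mulOp_mul (isBddMeas_ind hA) (isBddMeas_ind hB), chi]
  congr 1
  ext x
  by_cases h1 : x ∈ A <;> by_cases h2 : x ∈ B <;> simp [h1, h2]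

theorem chi_univ : chi μ (Set.univ : Set X) = 1 := by
  ext1 f
  apply Lp.ext
  filter_upwards [coeFn_chi MeasurableSet.univ f] with x h1
  rw [h1]
  simp

theorem star_chi {A : Set X} (hA : MeasurableSet A) : star (chi μ A) = chi μ A := by
  rw [chi, star_mulOp (isBddMeas_ind hA)]
  congr 1
  ext x
  by_cases h1 : x ∈ A <;> simp [h1]

/-- `b` maps into the functions that vanish outside `S`. -/
def Below (μ : Measure X) (b : Lp ℂ 2 μ →L[ℂ] Lp ℂ 2 μ) (S : Set X) : Prop :=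
  MeasurableSet S ∧ chi μ S * b = b

theorem Below.mono {b : Lp ℂ 2 μ →L[ℂ] Lp ℂ 2 μ} {S T : Set X} (h : Below μ b S)
    (hT : MeasurableSet T) (hST : S ⊆ T) : Below μ b T := by
  refine ⟨hT, ?_⟩
  rw [← h.2, ← mul_assoc, chi_mul_chi hT h.1, Set.inter_eq_self_of_subset_right hST]

theorem Below.mul {b : Lp ℂ 2 μ →L[ℂ] Lp ℂ 2 μ} {S : Set X} (h : Below μ b S)
    (c : Lp ℂ 2 μ →L[ℂ] Lp ℂ 2 μ) : Below μ (b * c) S := by
  refine ⟨h.1, ?_⟩
  rw [← mul_assoc, h.2]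

theorem Below.add {b c : Lp ℂ 2 μ →L[ℂ] Lp ℂ 2 μ} {S T : Set X} (h : Below μ b S)
    (h' : Below μ c T) : Below μ (b + c) (S ∪ T) := by
  refine ⟨h.1.union h'.1, ?_⟩
  rw [mul_add, (h.mono (h.1.union h'.1) Set.subset_union_left).2,
    (h'.mono (h.1.union h'.1) Set.subset_union_right).2]

/-- One of the two inequalities of bounded support expansion, with the constant `l`. -/
def Expands (μ : Measure X) (l : ℝ≥0) (a : Lp ℂ 2 μ →L[ℂ] Lp ℂ 2 μ) : Prop :=
  ∀ Q, MeasurableSet Q → ∃ S, Below μ (a * chi μ Q) S ∧ μ S ≤ l * μ Q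

theorem Expands.mono {l m : ℝ≥0} {a : Lp ℂ 2 μ →L[ℂ] Lp ℂ 2 μ} (h : Expands μ l a) (hlm : l ≤ m) :
    Expands μ m a := by
  intro Q hQ
  obtain ⟨S, h1, h2⟩ := h Q hQ
  exact ⟨S, h1, h2.trans (by gcongr)⟩

theorem Expands.add {l m : ℝ≥0} {a b : Lp ℂ 2 μ →L[ℂ] Lp ℂ 2 μ} (h : Expands μ l a)
    (h' : Expands μ m b) : Expands μ (l + m) (a + b) := by
  intro Q hQ
  obtain ⟨S, h1, h2⟩ := h Q hQ
  obtain ⟨T, h3, h4⟩ := h' Q hQ
  refine ⟨S ∪ T, ?_, ?_⟩
  · rw [add_mul]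
    exact h1.add h3
  · calc μ (S ∪ T) ≤ μ S + μ T := measure_union_le _ _
      _ ≤ l * μ Q + m * μ Q := by gcongr
      _ = ((l + m : ℝ≥0) : ℝ≥0∞) * μ Q := by push_cast; ring

theorem Expands.mul {l m : ℝ≥0} {a b : Lp ℂ 2 μ →L[ℂ] Lp ℂ 2 μ} (h : Expands μ l a)
    (h' : Expands μ m b) : Expands μ (l * m) (a * b) := by
  intro Q hQ
  obtain ⟨S, h1, h2⟩ := h' Q hQ
  obtain ⟨T, h3, h4⟩ := h S h1.1
  refine ⟨T, ?_, ?_⟩
  · have : a * b * chi μ Q = a * chi μ S * (b * chi μ Q) := by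
      rw [mul_assoc a (chi μ S), h1.2, mul_assoc]
    rw [this]
    exact h3.mul _
  · calc μ T ≤ l * μ S := h4
      _ ≤ l * (m * μ Q) := by gcongr
      _ = ((l * m : ℝ≥0) : ℝ≥0∞) * μ Q := by push_cast; ring

theorem expands_zero : Expands μ 0 (0 : Lp ℂ 2 μ →L[ℂ] Lp ℂ 2 μ) := by
  intro Q hQ
  exact ⟨∅, ⟨MeasurableSet.empty, by simp⟩, by simp⟩

theorem expands_smul_one (c : ℂ) : Expands μ 1 (c • (1 : Lp ℂ 2 μ →L[ℂ] Lp ℂ 2 μ)) := by
  intro Q hQ
  refine ⟨Q, ⟨hQ, ?_⟩, by simp⟩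
  rw [smul_mul_assoc, one_mul, mul_smul_comm, chi_mul_chi hQ hQ, Set.inter_self]

theorem expands_mulOp {φ : X → ℂ} (hφ : IsBddMeas φ) : Expands μ 1 (mulOp μ φ) := by
  intro Q hQ
  refine ⟨Q, ⟨hQ, ?_⟩, by simp⟩
  rw [← mul_assoc, chi, mulOp_mul (isBddMeas_ind hQ) hφ, mulOp_mul ((isBddMeas_ind hQ).mul hφ)
    (isBddMeas_ind hQ), mulOp_mul hφ (isBddMeas_ind hQ)]
  congr 1
  ext x
  by_cases h : x ∈ Q <;> simp [h]

end Pool.Agent.Q196.MB
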