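import Mathlib

/-!
# Isomorphisms of concrete `*`-algebras with many rank one projections

Let `A` and `B` be unital `*`-algebras of operators on Hilbert spaces such that no nonzero vector is
orthogonal to all the vectors `ξ` whose rank one operator `|ξ⟩⟨ξ|` lies in the algebra.  Then every
`*`-isomorphism between `A` and `B` is implemented by a unitary.
-/

namespace Pool.Agent.Q196.MB

open InnerProductSpace
open scoped ComplexConjugate

variable {H K : Type*} [NormedAddCommGroup H] [InnerProductSpace ℂ H] [CompleteSpace H]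
  [NormedAddCommGroup K] [InnerProductSpace ℂ K] [CompleteSpace K]

/-- Two families with dense span and the same Gram matrix are unitarily equivalent. -/
theorem exists_unitary_of_gram {ι : Type*} (x : ι → H) (y : ι → K)
    (hx : Dense (Submodule.span ℂ (Set.range x) : Set H))
    (hy : Dense (Submodule.span ℂ (Set.range y) : Set K))
    (h : ∀ i j, inner ℂ (x i) (x j) = inner ℂ (y i) (y j)) :
    ∃ u : H ≃ₗᵢ[ℂ] K, ∀ i, u (x i) = y i := by
  have hx' : DenseRange (Finsupp.linearCombination ℂ x) := by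
    rw [DenseRange, ← LinearMap.coe_range, Finsupp.range_linearCombination]
    exact hx
  have hy' : DenseRange (Finsupp.linearCombination ℂ y) := by
    rw [DenseRange, ← LinearMap.coe_range, Finsupp.range_linearCombination]
    exact hy
  have hin : ∀ f : ι →₀ ℂ, ‖Finsupp.linearCombination ℂ y f‖ = ‖Finsupp.linearCombination ℂ x f‖ := by
    intro f
    have : inner ℂ (Finsupp.linearCombination ℂ y f) (Finsupp.linearCombination ℂ y f)
        = inner ℂ (Finsupp.linearCombination ℂ x f) (Finsupp.linearCombination ℂ x f) := by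
      simp only [Finsupp.linearCombination_apply, Finsupp.sum, sum_inner, inner_sum,
        inner_smul_left, inner_smul_right, h]
    rw [@norm_eq_sqrt_re_inner ℂ, @norm_eq_sqrt_re_inner ℂ, this]
  have hn1 : ∃ C : ℝ, ∀ f : ι →₀ ℂ, ‖Finsupp.linearCombination ℂ y (LinearEquiv.refl ℂ (ι →₀ ℂ) f)‖
      ≤ C * ‖Finsupp.linearCombination ℂ x f‖ := ⟨1, fun f => by simp [hin]⟩
  have hn2 : ∃ C : ℝ, ∀ f : ι →₀ ℂ,
      ‖Finsupp.linearCombination ℂ x ((LinearEquiv.refl ℂ (ι →₀ ℂ)).symm f)‖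
      ≤ C * ‖Finsupp.linearCombination ℂ y f‖ := ⟨1, fun f => by simp [hin]⟩
  let e : H ≃L[ℂ] K := (LinearEquiv.refl ℂ (ι →₀ ℂ)).extend (Finsupp.linearCombination ℂ x)
    (Finsupp.linearCombination ℂ y) hx' hn1 hy' hn2
  have he : ∀ f, e (Finsupp.linearCombination ℂ x f) = Finsupp.linearCombination ℂ y f := fun f =>
    LinearEquiv.extend_eq _ _ _ hx' hn1 hy' hn2 f
  refine ⟨⟨e.toLinearEquiv, ?_⟩, ?_⟩
  · intro v
    refine hx'.induction_on (p := fun v => ‖e.toLinearEquiv v‖ = ‖v‖) v ?_ ?_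
    · exact isClosed_eq (by
        change Continuous fun v => ‖e v‖
        fun_prop) continuous_norm
    · intro f
      change ‖e (Finsupp.linearCombination ℂ x f)‖ = _
      rw [he, hin]
  · intro i
    change e (x i) = y i
    have := he (Finsupp.single i 1)
    simpa using this

/-- No nonzero vector is orthogonal to all `ξ` with `|ξ⟩⟨ξ| ∈ A`. -/
def RankOneRich (A : StarSubalgebra ℂ (H →L[ℂ] H)) : Prop :=
  ∀ h : H, h ≠ 0 → ∃ ξ, rankOne ℂ ξ ξ ∈ A ∧ inner ℂ ξ h ≠ 0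

theorem RankOneRich.unit {A : StarSubalgebra ℂ (H →L[ℂ] H)} (hA : RankOneRich A) {h : H}
    (hh : h ≠ 0) : ∃ ξ, ‖ξ‖ = 1 ∧ rankOne ℂ ξ ξ ∈ A ∧ inner ℂ ξ h ≠ 0 := by
  obtain ⟨ξ, h1, h2⟩ := hA h hh
  have h0 : ξ ≠ 0 := by
    rintro rfl
    simp at h2
  have hn : (‖ξ‖ : ℂ) ≠ 0 := by simpa using h0
  refine ⟨(‖ξ‖ : ℂ)⁻¹ • ξ, ?_, ?_, ?_⟩
  · rw [norm_smul, norm_inv, Complex.norm_real, norm_norm, inv_mul_cancel₀ (by simpa using h0)]
  · rw [map_smulₛₗ, map_smul]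
    exact A.smul_mem (A.smul_mem h1 _) _
  · rw [inner_smul_left]
    simp [h0, h2]

theorem ro_mul_mul (T : H →L[ℂ] H) (x y x' y' : H) :
    rankOne ℂ x y * T * rankOne ℂ x' y' = inner ℂ y (T x') • rankOne ℂ x y' := by
  ext v
  simp [smul_smul, mul_comm]

theorem star_ro (x y : H) : star (rankOne ℂ x y) = rankOne ℂ y x := by
  rw [ContinuousLinearMap.star_eq_adjoint, adjoint_rankOne]

variable {A : StarSubalgebra ℂ (H →L[ℂ] H)} {B : StarSubalgebra ℂ (K →L[ℂ] K)}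

theorem ro_ne_zero {x : H} (hx : ‖x‖ = 1) : rankOne ℂ x x ≠ 0 := by
  have : x ≠ 0 := by
    rintro rfl
    simp at hx
  exact rankOne_ne_zero this this

/-- Isomorphisms preserve rank one projections. -/
theorem image_ro (Φ : A ≃⋆ₐ[ℂ] B) (hB : RankOneRich B) {ξ : H} (hξ : ‖ξ‖ = 1)
    (hA : rankOne ℂ ξ ξ ∈ A) :
    ∃ η : K, ‖η‖ = 1 ∧ (Φ ⟨rankOne ℂ ξ ξ, hA⟩ : K →L[ℂ] K) = rankOne ℂ η η := by
  set p : A := ⟨rankOne ℂ ξ ξ, hA⟩ with hp
  set q : B := Φ p with hq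
  have hpp : p * p = p := by
    apply Subtype.ext
    change rankOne ℂ ξ ξ * rankOne ℂ ξ ξ = rankOne ℂ ξ ξ
    have := ro_mul_mul (1 : H →L[ℂ] H) ξ ξ ξ ξ
    rw [mul_one] at this
    rw [this]
    simp [hξ]
  have hps : star p = p := by
    apply Subtype.ext
    change star (rankOne ℂ ξ ξ) = rankOne ℂ ξ ξ
    rw [star_ro]
  have hqq : q * q = q := by rw [hq, ← map_mul, hpp]
  have hqs : star q = q := by rw [hq, ← map_star, hps]
  have hq0 : q ≠ 0 := by
    intro h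
    have : p = 0 := by
      have h2 := congrArg Φ.symm h
      rw [hq, StarAlgEquiv.symm_apply_apply, map_zero] at h2
      exact h2
    have h3 := congrArg Subtype.val this
    exact ro_ne_zero hξ h3
  have hmin : ∀ b : B, ∃ c : ℂ, q * b * q = c • q := by
    intro b
    refine ⟨inner ℂ ξ ((Φ.symm b : H →L[ℂ] H) ξ), ?_⟩
    have h1 : p * Φ.symm b * p = inner ℂ ξ ((Φ.symm b : H →L[ℂ] H) ξ) • p := by
      apply Subtype.ext
      exact ro_mul_mul _ _ _ _ _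
    have h2 := congrArg Φ h1
    rw [map_mul, map_mul, StarAlgEquiv.apply_symm_apply, map_smul] at h2
    exact h2
  obtain ⟨k, hk⟩ : ∃ k, (q : K →L[ℂ] K) k ≠ 0 := by
    by_contra hcon
    push Not at hcon
    apply hq0
    apply Subtype.ext
    ext k
    simpa using hcon k
  obtain ⟨η, hη1, hη2⟩ := hB _ hk
  have hqη : (q : K →L[ℂ] K) η ≠ 0 := by
    intro h0
    apply hη2
    have : inner ℂ η ((q : K →L[ℂ] K) k) = inner ℂ ((q : K →L[ℂ] K) η) k := by
      have h4 : ((star q : B) : K →L[ℂ] K) = q := by rw [hqs]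
      have h5 : star (q : K →L[ℂ] K) = q := h4
      rw [← ContinuousLinearMap.adjoint_inner_left, ← ContinuousLinearMap.star_eq_adjoint, h5]
    rw [this, h0, inner_zero_left]
  obtain ⟨c, hc⟩ := hmin ⟨rankOne ℂ η η, hη1⟩
  have hc' : rankOne ℂ ((q : K →L[ℂ] K) η) ((q : K →L[ℂ] K) η) = c • (q : K →L[ℂ] K) := by
    have h1 := congrArg Subtype.val hc
    have h2 : (q : K →L[ℂ] K) * rankOne ℂ η η * q = c • (q : K →L[ℂ] K) := h1
    rw [← h2]
    have h4 : ((star q : B) : K →L[ℂ] K) = q := by rw [hqs]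
    have h5 : star (q : K →L[ℂ] K) = q := h4
    ext v
    simp only [rankOne_apply, ContinuousLinearMap.mul_apply, map_smul]
    congr 1
    rw [← ContinuousLinearMap.adjoint_inner_left, ← ContinuousLinearMap.star_eq_adjoint, h5]
  set η' := (q : K →L[ℂ] K) η with hη'
  have hn : (‖η'‖ : ℂ) ≠ 0 := by simpa using hqη
  have hc0 : c ≠ 0 := by
    rintro rfl
    rw [zero_smul] at hc'
    exact rankOne_ne_zero hqη hqη hc'
  refine ⟨(‖η'‖ : ℂ)⁻¹ • η', ?_, ?_⟩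
  · rw [norm_smul, norm_inv, Complex.norm_real, norm_norm, inv_mul_cancel₀ (by simpa using hqη)]
  · set ζ := (‖η'‖ : ℂ)⁻¹ • η' with hζ
    have hζ1 : ‖ζ‖ = 1 := by
      rw [hζ, norm_smul, norm_inv, Complex.norm_real, norm_norm,
        inv_mul_cancel₀ (by simpa using hqη)]
    have h1 : η' = (‖η'‖ : ℂ) • ζ := by
      rw [hζ, smul_smul, mul_inv_cancel₀ hn, one_smul]
    have h2 : rankOne ℂ η' η' = ((‖η'‖ : ℂ) * ‖η'‖) • rankOne ℂ ζ ζ := by
      ext v
      conv_lhs => rw [h1]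
      simp only [rankOne_apply, ContinuousLinearMap.smul_apply, inner_smul_left,
        Complex.conj_ofReal, smul_smul]
      congr 1
      ring
    obtain ⟨d, hd⟩ : ∃ d : ℂ, (q : K →L[ℂ] K) = d • rankOne ℂ ζ ζ := by
      refine ⟨c⁻¹ * ((‖η'‖ : ℂ) * ‖η'‖), ?_⟩
      rw [← smul_smul, ← h2, hc', smul_smul, inv_mul_cancel₀ hc0, one_smul]
    have h3 : (q : K →L[ℂ] K) * q = q := congrArg Subtype.val hqq
    have h4 : rankOne ℂ ζ ζ * rankOne ℂ ζ ζ = rankOne ℂ ζ ζ := by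
      have := ro_mul_mul (1 : K →L[ℂ] K) ζ ζ ζ ζ
      rw [mul_one] at this
      rw [this]
      simp [hζ1]
    rw [hd, smul_mul_smul_comm, h4] at h3
    have h5 : d * d = d := by
      have h6 : (d * d - d) • rankOne ℂ ζ ζ = 0 := by rw [sub_smul, h3, sub_self]
      rcases smul_eq_zero.1 h6 with h7 | h7
      · exact sub_eq_zero.1 h7
      · exact absurd h7 (ro_ne_zero hζ1)
    have hd0 : d ≠ 0 := by
      rintro rfl
      rw [zero_smul] at hd
      exact hq0 (Subtype.ext hd)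
    have hd1 : d = 1 := by
      have := mul_right_cancel₀ hd0 (h5.trans (one_mul d).symm)
      exact this
    rw [hd, hd1, one_smul]

theorem inner_image_eq (Φ : A ≃⋆ₐ[ℂ] B) {ξ : H} {η : K} (hξ : ‖ξ‖ = 1) (hη : ‖η‖ = 1)
    (hA : rankOne ℂ ξ ξ ∈ A) (hΦ : (Φ ⟨rankOne ℂ ξ ξ, hA⟩ : K →L[ℂ] K) = rankOne ℂ η η) (a : A) :
    inner ℂ η ((Φ a : K →L[ℂ] K) η) = inner ℂ ξ ((a : H →L[ℂ] H) ξ) := by
  set p : A := ⟨rankOne ℂ ξ ξ, hA⟩ with hp
  have h1 : p * a * p = inner ℂ ξ ((a : H →L[ℂ] H) ξ) • p := by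
    apply Subtype.ext
    exact ro_mul_mul _ _ _ _ _
  have h2 := congrArg Subtype.val (congrArg Φ h1)
  rw [map_mul, map_mul, map_smul] at h2
  change (Φ p : K →L[ℂ] K) * (Φ a : K →L[ℂ] K) * (Φ p : K →L[ℂ] K)
    = inner ℂ ξ ((a : H →L[ℂ] H) ξ) • (Φ p : K →L[ℂ] K) at h2
  rw [hΦ, ro_mul_mul] at h2
  have h6 : (inner ℂ η ((Φ a : K →L[ℂ] K) η) - inner ℂ ξ ((a : H →L[ℂ] H) ξ)) • rankOne ℂ η η
      = 0 := by rw [sub_smul, h2, sub_self]
  rcases smul_eq_zero.1 h6 with h7 | h7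
  · exact sub_eq_zero.1 h7
  · exact absurd h7 (ro_ne_zero hη)

theorem inner_image_zero (Φ : A ≃⋆ₐ[ℂ] B) {ξ ξ' : H} {η η' : K} (hη : ‖η‖ = 1) (hη' : ‖η'‖ = 1)
    (hA : rankOne ℂ ξ ξ ∈ A) (hA' : rankOne ℂ ξ' ξ' ∈ A)
    (hΦ : (Φ ⟨rankOne ℂ ξ ξ, hA⟩ : K →L[ℂ] K) = rankOne ℂ η η)
    (hΦ' : (Φ ⟨rankOne ℂ ξ' ξ', hA'⟩ : K →L[ℂ] K) = rankOne ℂ η' η') (a : A)
    (h0 : inner ℂ ξ ((a : H →L[ℂ] H) ξ') = 0) :
    inner ℂ η ((Φ a : K →L[ℂ] K) η') = 0 := by
  set p : A := ⟨rankOne ℂ ξ ξ, hA⟩ with hp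
  set p' : A := ⟨rankOne ℂ ξ' ξ', hA'⟩ with hp'
  have h1 : p * a * p' = 0 := by
    apply Subtype.ext
    have := ro_mul_mul (a : H →L[ℂ] H) ξ ξ ξ' ξ'
    rw [h0, zero_smul] at this
    exact this
  have h2 := congrArg Subtype.val (congrArg Φ h1)
  rw [map_mul, map_mul, map_zero] at h2
  change (Φ p : K →L[ℂ] K) * (Φ a : K →L[ℂ] K) * (Φ p' : K →L[ℂ] K) = 0 at h2
  rw [hΦ, hΦ', ro_mul_mul] at h2
  rcases smul_eq_zero.1 h2 with h7 | h7
  · exact h7
  · exfalso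
    have e1 : η ≠ 0 := by
      rintro rfl
      simp at hη
    have e2 : η' ≠ 0 := by
      rintro rfl
      simp at hη'
    exact rankOne_ne_zero e1 e2 h7

theorem dense_of_no_orthogonal {ι : Type*} (x : ι → H)
    (h : ∀ v : H, v ≠ 0 → ∃ i, inner ℂ (x i) v ≠ 0) :
    Dense (Submodule.span ℂ (Set.range x) : Set H) := by
  rw [Submodule.dense_iff_topologicalClosure_eq_top, Submodule.topologicalClosure_eq_top_iff,
    Submodule.eq_bot_iff]
  intro v hv
  by_contra hv0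
  obtain ⟨i, hi⟩ := h v hv0
  exact hi (hv (x i) (Submodule.subset_span ⟨i, rfl⟩))

/-- Unit vectors whose rank one projection lies in the algebra. -/
abbrev Units1 (A : StarSubalgebra ℂ (H →L[ℂ] H)) := {ξ : H // ‖ξ‖ = 1 ∧ rankOne ℂ ξ ξ ∈ A}

/-- Two such vectors are linked if the algebra connects them. -/
def linkSetoid (A : StarSubalgebra ℂ (H →L[ℂ] H)) : Setoid (Units1 A) where
  r ξ ζ := ∃ a ∈ A, inner ℂ (ξ : H) (a (ζ : H)) ≠ 0
  iseqv := by
    refine ⟨?_, ?_, ?_⟩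
    · intro ξ
      refine ⟨1, A.one_mem, ?_⟩
      rw [ContinuousLinearMap.one_apply, inner_self_ne_zero]
      rintro h
      have := ξ.2.1
      rw [h, norm_zero] at this
      exact zero_ne_one this
    · rintro ξ ζ ⟨a, ha, h⟩
      refine ⟨star a, star_mem ha, ?_⟩
      rw [ContinuousLinearMap.star_eq_adjoint, ContinuousLinearMap.adjoint_inner_right]
      intro h2
      apply h
      rw [← inner_conj_symm, h2, map_zero]
    · rintro ξ ζ θ ⟨a, ha, h⟩ ⟨b, hb, h'⟩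
      refine ⟨a * rankOne ℂ (ζ : H) (ζ : H) * b, A.mul_mem (A.mul_mem ha ζ.2.2) hb, ?_⟩
      simp only [ContinuousLinearMap.mul_apply, rankOne_apply, map_smul, inner_smul_right]
      exact mul_ne_zero h' h

/-- **The spatial theorem.** -/
theorem spatial_of_rich (hA : RankOneRich A) (hB : RankOneRich B) (Φ : A ≃⋆ₐ[ℂ] B) :
    ∃ u : H ≃ₗᵢ[ℂ] K, ∀ (a : A) (v : H), (Φ a : K →L[ℂ] K) (u v) = u ((a : H →L[ℂ] H) v) := by
  classical
  letI := linkSetoid A
  let R := Quotient (linkSetoid A)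
  have hch : ∀ c : R, ∃ η : K, ‖η‖ = 1 ∧
      (Φ ⟨rankOne ℂ (c.out : H) (c.out : H), c.out.2.2⟩ : K →L[ℂ] K) = rankOne ℂ η η :=
    fun c => image_ro Φ hB c.out.2.1 c.out.2.2
  choose η hη1 hη2 using hch
  let x : A × R → H := fun i => (i.1 : H →L[ℂ] H) (i.2.out : H)
  let y : A × R → K := fun i => (Φ i.1 : K →L[ℂ] K) (η i.2)
  have hlink : ∀ (ξ : H) (h1 : ‖ξ‖ = 1) (h2 : rankOne ℂ ξ ξ ∈ A), ∃ (c : R), ∃ a : A,
      inner ℂ ξ ((a : H →L[ℂ] H) (c.out : H)) ≠ 0 := by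
    intro ξ h1 h2
    let s : Units1 A := ⟨ξ, h1, h2⟩
    have h3 : (linkSetoid A).r s (Quotient.out (Quotient.mk (linkSetoid A) s)) :=
      (linkSetoid A).symm (Quotient.mk_out s)
    obtain ⟨a, ha, h4⟩ := h3
    exact ⟨Quotient.mk _ s, ⟨a, ha⟩, h4⟩
  have hgram : ∀ i j, inner ℂ (x i) (x j) = inner ℂ (y i) (y j) := by
    rintro ⟨a, c⟩ ⟨b, d⟩
    have e1 : inner ℂ (x (a, c)) (x (b, d)) =
        inner ℂ (c.out : H) (((star a * b : A) : H →L[ℂ] H) (d.out : H)) := by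
      change inner ℂ ((a : H →L[ℂ] H) (c.out : H)) ((b : H →L[ℂ] H) (d.out : H)) =
        inner ℂ (c.out : H) ((star (a : H →L[ℂ] H)) ((b : H →L[ℂ] H) (d.out : H)))
      rw [ContinuousLinearMap.star_eq_adjoint, ContinuousLinearMap.adjoint_inner_right]
    have e2 : inner ℂ (y (a, c)) (y (b, d)) =
        inner ℂ (η c) ((Φ (star a * b) : K →L[ℂ] K) (η d)) := by
      rw [map_mul, map_star]
      change inner ℂ ((Φ a : K →L[ℂ] K) (η c)) ((Φ b : K →L[ℂ] K) (η d)) =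
        inner ℂ (η c) ((star (Φ a : K →L[ℂ] K)) ((Φ b : K →L[ℂ] K) (η d)))
      rw [ContinuousLinearMap.star_eq_adjoint, ContinuousLinearMap.adjoint_inner_right]
    rw [e1, e2]
    by_cases hcd : c = d
    · subst hcd
      exact (inner_image_eq Φ c.out.2.1 (hη1 c) c.out.2.2 (hη2 c) _).symm
    · have h0 : inner ℂ (c.out : H) (((star a * b : A) : H →L[ℂ] H) (d.out : H)) = 0 := by
        by_contra hne
        apply hcd
        have h5 : (linkSetoid A).r c.out d.out := ⟨_, (star a * b : A).2, hne⟩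
        have h6 : Quotient.mk (linkSetoid A) c.out = Quotient.mk (linkSetoid A) d.out :=
          Quotient.sound h5
        rwa [Quotient.out_eq, Quotient.out_eq] at h6
      rw [h0, inner_image_zero Φ (hη1 c) (hη1 d) c.out.2.2 d.out.2.2 (hη2 c) (hη2 d) _ h0]
  have hdx : Dense (Submodule.span ℂ (Set.range x) : Set H) := by
    apply dense_of_no_orthogonal
    intro v hv
    obtain ⟨ξ, h1, h2, h3⟩ := hA.unit hv
    obtain ⟨c, a, h4⟩ := hlink ξ h1 h2
    refine ⟨(⟨rankOne ℂ ξ ξ, h2⟩ * a, c), ?_⟩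
    change inner ℂ (rankOne ℂ ξ ξ ((a : H →L[ℂ] H) (c.out : H))) v ≠ 0
    rw [rankOne_apply, inner_smul_left]
    refine mul_ne_zero ?_ h3
    rw [inner_conj_symm]
    intro h0
    apply h4
    rw [← inner_conj_symm, h0, map_zero]
  have hdy : Dense (Submodule.span ℂ (Set.range y) : Set K) := by
    apply dense_of_no_orthogonal
    intro v hv
    obtain ⟨ζ, h1, h2, h3⟩ := hB.unit hv
    obtain ⟨ξ, g1, g2⟩ := image_ro Φ.symm hA h1 h2
    have hξ : rankOne ℂ ξ ξ ∈ A := by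
      rw [← g2]
      exact (Φ.symm _).2
    have g3 : Φ ⟨rankOne ℂ ξ ξ, hξ⟩ = ⟨rankOne ℂ ζ ζ, h2⟩ := by
      have : (⟨rankOne ℂ ξ ξ, hξ⟩ : A) = Φ.symm ⟨rankOne ℂ ζ ζ, h2⟩ := Subtype.ext g2.symm
      rw [this, StarAlgEquiv.apply_symm_apply]
    obtain ⟨c, a, h4⟩ := hlink ξ g1 hξ
    have h5 : inner ℂ ζ ((Φ a : K →L[ℂ] K) (η c)) ≠ 0 := by
      intro h0
      apply h4
      have hc2 : (Φ.symm ⟨rankOne ℂ (η c) (η c), by rw [← hη2 c]; exact (Φ _).2⟩ : H →L[ℂ] H)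
          = rankOne ℂ (c.out : H) (c.out : H) := by
        have : (⟨rankOne ℂ (η c) (η c), by rw [← hη2 c]; exact (Φ _).2⟩ : B) =
            Φ ⟨rankOne ℂ (c.out : H) (c.out : H), c.out.2.2⟩ := Subtype.ext (hη2 c).symm
        rw [this, StarAlgEquiv.symm_apply_apply]
      have := inner_image_zero Φ.symm g1 c.out.2.1 h2 _ g2 hc2 (Φ a) h0
      rwa [StarAlgEquiv.symm_apply_apply] at this
    refine ⟨(⟨rankOne ℂ ξ ξ, hξ⟩ * a, c), ?_⟩
    change inner ℂ ((Φ (⟨rankOne ℂ ξ ξ, hξ⟩ * a) : K →L[ℂ] K) (η c)) v ≠ 0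
    rw [map_mul, g3]
    change inner ℂ (rankOne ℂ ζ ζ ((Φ a : K →L[ℂ] K) (η c))) v ≠ 0
    rw [rankOne_apply, inner_smul_left]
    refine mul_ne_zero ?_ h3
    rw [inner_conj_symm]
    intro h0
    apply h5
    rw [← inner_conj_symm, h0, map_zero]
  obtain ⟨u, hu⟩ := exists_unitary_of_gram x y hdx hdy hgram
  refine ⟨u, fun a v => ?_⟩
  have heq : Set.EqOn (fun v : H => (Φ a : K →L[ℂ] K) (u v)) (fun v => u ((a : H →L[ℂ] H) v))
      (Submodule.span ℂ (Set.range x) : Set H) := by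
    intro w hw
    induction hw using Submodule.span_induction with
    | mem w hw =>
      obtain ⟨⟨b, c⟩, rfl⟩ := hw
      change (Φ a : K →L[ℂ] K) (u (x (b, c))) = u ((a : H →L[ℂ] H) (x (b, c)))
      have e1 : (a : H →L[ℂ] H) (x (b, c)) = x (a * b, c) := rfl
      rw [e1, hu, hu]
      change (Φ a : K →L[ℂ] K) ((Φ b : K →L[ℂ] K) (η c)) = (Φ (a * b) : K →L[ℂ] K) (η c)
      rw [map_mul]
      rfl
    | zero => simp
    | add w w' _ _ h h' =>
      change (Φ a : K →L[ℂ] K) (u (w + w')) = u ((a : H →L[ℂ] H) (w + w'))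
      rw [map_add, map_add, map_add, map_add]
      exact congrArg₂ (· + ·) h h'
    | smul c w _ h =>
      change (Φ a : K →L[ℂ] K) (u (c • w)) = u ((a : H →L[ℂ] H) (c • w))
      rw [map_smul, map_smul, map_smul, map_smul]
      exact congrArg (c • ·) h
  exact congrFun (Continuous.ext_on hdx (by fun_prop) (by fun_prop) heq) v

end Pool.Agent.Q196.MB
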