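import Pool.Agent.Q196.MB.Walsh2
import Pool.Agent.Q196.MB.Spatial

/-!
# Rank one projections in the algebra
-/

namespace Pool.Agent.Q196.MB

open MeasureTheory InnerProductSpace
open scoped ENNReal NNReal lp

variable {X : Type*} [MeasurableSpace X] {μ : Measure X} {B : Set X}

/-- The rank one operator of the indicator function of `B`. -/
noncomputable def roB (hB : MeasurableSet B) (hf : μ B ≠ ∞) : Lp ℂ 2 μ →L[ℂ] Lp ℂ 2 μ :=
  rankOne ℂ (WalshSystem.oneB hB hf) (WalshSystem.oneB hB hf)

theorem roB_mem_of_walsh {I : Type*} [Infinite I] (W : WalshSystem μ B I) (hB : MeasurableSet B)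
    (hf : μ B ≠ ∞) (hp : μ B ≠ 0) : roB hB hf ∈ Cu μ := by
  classical
  obtain ⟨g, L, hg, hL⟩ := exists_involutions I
  let gp : Fin 3 → Equiv.Perm (I →₀ ZMod 2) := fun i => (g i).toEquiv
  have hlim := tendsto_meanOp gp L (fun i γ => hg i γ) 0 (fun i => (g i).map_zero) hL
  have hU : ∀ i, W.U hB hf hp (gp i) ∈ Cu μ := by
    intro i
    refine mem_Cu (W.expands_U hB hf hp (g i)) ?_
    rw [W.star_U]
    exact W.expands_U hB hf hp (g i).symm
  have hT : W.tr hB hf hp (meanOp gp) ∈ Cu μ := by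
    have : W.tr hB hf hp (meanOp gp) = (3 : ℂ)⁻¹ • ∑ i, W.U hB hf hp (gp i) := by
      rw [meanOp, W.tr_smul, Fin.sum_univ_three, Fin.sum_univ_three, W.tr_add, W.tr_add]
      rfl
    rw [this]
    exact (Cu μ).smul_mem (sum_mem fun i _ => hU i) _
  have hpow : ∀ n : ℕ, W.tr hB hf hp (meanOp gp ^ (n + 1)) ∈ Cu μ := by
    intro n
    induction n with
    | zero => simpa using hT
    | succ n ih =>
      rw [pow_succ, W.tr_mul]
      exact (Cu μ).mul_mem ih hT
  have hlim2 : Filter.Tendsto (fun n : ℕ => W.tr hB hf hp (meanOp gp ^ (n + 1))) Filter.atTop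
      (nhds (W.tr hB hf hp (projO 0))) :=
    ((W.continuous_tr hB hf hp).tendsto _).comp (hlim.comp (Filter.tendsto_add_atTop_nat 1))
  have hmem : W.tr hB hf hp (projO 0) ∈ Cu μ :=
    isClosed_Cu.mem_of_tendsto hlim2 (Filter.Eventually.of_forall hpow)
  have hcalc : W.tr hB hf hp (projO 0) = ((WalshSystem.cst μ B : ℂ) * WalshSystem.cst μ B) • roB hB hf := by
    ext1 h
    rw [W.tr_apply, projO_apply, W.Vc_single, ContinuousLinearMap.smul_apply, roB, rankOne_apply]
    have h1 : (W.Vs hB hf hp h) 0 = inner ℂ (W.e hB hf 0) h := by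
      have h2 := W.Vc_single hB hf hp 0 1
      rw [one_smul] at h2
      rw [← h2]
      have h3 : inner ℂ (W.Vc hB hf hp (lp.single 2 0 (1 : ℂ))) h
          = inner ℂ (lp.single 2 0 (1 : ℂ)) (W.Vs hB hf hp h) := by
        rw [WalshSystem.Vs, ContinuousLinearMap.adjoint_inner_right]
      rw [h3, lp.inner_single_left]
      simp
    have h4 : W.e hB hf 0 = (WalshSystem.cst μ B : ℂ) • WalshSystem.oneB hB hf := by
      rw [WalshSystem.e, WalshSystem.M_zero]
      congr 1
      apply Lp.ext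
      filter_upwards [coeFn_chi hB (WalshSystem.oneB hB hf),
        indicatorConstLp_coeFn (p := 2) (hs := hB) (hμs := hf) (c := (1 : ℂ))] with x h1 h2
      rw [h1, WalshSystem.oneB, h2]
      by_cases hx : x ∈ B
      · rw [Set.indicator_of_mem hx, mul_one]
      · rw [Set.indicator_of_notMem hx, mul_zero]
    rw [h1, h4, inner_smul_left, Complex.conj_ofReal, smul_smul, smul_smul]
    congr 1
    ring
  rw [hcalc] at hmem
  have hc : ((WalshSystem.cst μ B : ℂ) * WalshSystem.cst μ B) ≠ 0 := by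
    have : (WalshSystem.cst μ B : ℂ) ≠ 0 := by
      rw [Complex.ofReal_ne_zero, WalshSystem.cst]
      exact inv_ne_zero (Real.sqrt_ne_zero'.2 (ENNReal.toReal_pos hp hf))
    exact mul_ne_zero this this
  have := (Cu μ).smul_mem hmem ((WalshSystem.cst μ B : ℂ) * WalshSystem.cst μ B)⁻¹
  rwa [smul_smul, inv_mul_cancel₀ hc, one_smul] at this

/-- An atom carries its rank one projection. -/
theorem roB_mem_of_atom (hB : MeasurableSet B) (hf : μ B ≠ ∞)
    (ha : ∀ C, MeasurableSet C → μ (C ∩ B) = 0 ∨ μ (B \ C) = 0) : roB hB hf ∈ Cu μ := by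
  have hone : chi μ B (WalshSystem.oneB hB hf) = WalshSystem.oneB hB hf := by
    apply Lp.ext
    filter_upwards [coeFn_chi hB (WalshSystem.oneB hB hf),
      indicatorConstLp_coeFn (p := 2) (hs := hB) (hμs := hf) (c := (1 : ℂ))] with x h1 h2
    rw [h1, WalshSystem.oneB, h2]
    by_cases hx : x ∈ B
    · rw [Set.indicator_of_mem hx, mul_one]
    · rw [Set.indicator_of_notMem hx, mul_zero]
  have hE : Expands μ 1 (roB hB hf) := by
    intro Q hQ
    rcases ha Q hQ with h | h
    · refine ⟨∅, ⟨MeasurableSet.empty, ?_⟩, by simp⟩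
      have h0 : roB hB hf * chi μ Q = 0 := by
        ext1 v
        rw [ContinuousLinearMap.mul_apply, roB, rankOne_apply, WalshSystem.oneB,
          L2.inner_indicatorConstLp_one]
        have : ∫ x in B, (chi μ Q v : Lp ℂ 2 μ) x ∂μ = 0 := by
          have h3 : ∫ x in B, (chi μ Q v : Lp ℂ 2 μ) x ∂μ = ∫ x in B, (0 : ℂ) ∂μ := by
            apply setIntegral_congr_ae hB
            have h4 : ∀ᵐ x ∂μ, x ∉ Q ∩ B := measure_eq_zero_iff_ae_notMem.1 h
            filter_upwards [coeFn_chi hQ v, h4] with x h1 h2 hx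
            rw [h1, Set.indicator_of_notMem, zero_mul]
            intro hxQ
            exact h2 ⟨hxQ, hx⟩
          rw [h3, integral_zero]
        rw [this, zero_smul, ContinuousLinearMap.zero_apply]
      rw [h0, mul_zero]
    · refine ⟨B, ⟨hB, ?_⟩, ?_⟩
      · ext1 v
        simp only [ContinuousLinearMap.mul_apply, roB, rankOne_apply, map_smul]
        rw [hone]
      · calc μ B ≤ μ (Q ∪ (B \ Q)) := measure_mono (by
              rw [Set.union_diff_self]
              exact Set.subset_union_right)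
          _ ≤ μ Q + μ (B \ Q) := measure_union_le _ _
          _ = ((1 : ℝ≥0) : ℝ≥0∞) * μ Q := by rw [h]; simp
  refine mem_Cu hE ?_
  rw [roB, star_ro]
  exact hE

/-- If every set of positive finite measure contains a set of positive measure whose rank one
projection is in the algebra, then the algebra is rich in rank one projections. -/
theorem rich_of_roB (hR : ∀ A, MeasurableSet A → μ A ≠ 0 → μ A ≠ ∞ →
    ∃ (B : Set X) (hB : MeasurableSet B) (hf : μ B ≠ ∞), B ⊆ A ∧ μ B ≠ 0 ∧ roB hB hf ∈ Cu μ) :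
    RankOneRich (Cu μ) := by
  intro h hh
  have hm : StronglyMeasurable (h : X → ℂ) := Lp.stronglyMeasurable h
  obtain ⟨n, hn⟩ : ∃ n : ℕ, μ {x | (1 : ℝ) / (n + 1) ≤ ‖h x‖} ≠ 0 := by
    by_contra hcon
    push Not at hcon
    apply hh
    apply Lp.ext
    have h1 : ∀ᵐ x ∂μ, ∀ n : ℕ, x ∉ {x | (1 : ℝ) / (n + 1) ≤ ‖h x‖} := by
      rw [ae_all_iff]
      intro n
      exact measure_eq_zero_iff_ae_notMem.1 (hcon n)
    filter_upwards [h1, Lp.coeFn_zero ℂ 2 μ] with x hx h0
    rw [h0]
    by_contra hne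
    have hpos : 0 < ‖h x‖ := norm_pos_iff.2 hne
    obtain ⟨n, hn⟩ := exists_nat_one_div_lt hpos
    exact hx n hn.le
  set A := {x | (1 : ℝ) / (n + 1) ≤ ‖h x‖} with hA
  have hAm : MeasurableSet A := measurableSet_le measurable_const hm.norm.measurable
  have hAf : μ A ≠ ∞ := by
    have hpos : (0 : ℝ) < 1 / (n + 1) := by positivity
    have h1 := (Lp.memLp h).meas_ge_lt_top (by norm_num) (by norm_num)
      (ε := ⟨1 / (n + 1), hpos.le⟩) (by
        intro h0
        have := congrArg NNReal.toReal h0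
        change (1 : ℝ) / (n + 1) = 0 at this
        exact hpos.ne' this)
    exact h1.ne
  obtain ⟨B, hB, hf, hBA, hp, hmem⟩ := hR A hAm hn hAf
  set φ : X → ℂ := B.indicator (fun x => h x / ‖h x‖) with hφ
  have hφb : IsBddMeas φ := by
    refine ⟨(hm.measurable.div
      (Complex.measurable_ofReal.comp hm.norm.measurable)).indicator hB, 1, fun x => ?_⟩
    by_cases hx : x ∈ B
    · rw [hφ, Set.indicator_of_mem hx, norm_div, Complex.norm_real, norm_norm]
      exact div_self_le_one _
    · rw [hφ, Set.indicator_of_notMem hx, norm_zero]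
      exact zero_le_one
  refine ⟨mulOp μ φ (WalshSystem.oneB hB hf), ?_, ?_⟩
  · have h1 : rankOne ℂ (mulOp μ φ (WalshSystem.oneB hB hf)) (mulOp μ φ (WalshSystem.oneB hB hf))
        = mulOp μ φ * roB hB hf * star (mulOp μ φ) := by
      ext1 v
      simp only [ContinuousLinearMap.mul_apply, roB, rankOne_apply, map_smul]
      congr 1
      rw [ContinuousLinearMap.star_eq_adjoint, ContinuousLinearMap.adjoint_inner_right]
    rw [h1]
    exact (Cu μ).mul_mem ((Cu μ).mul_mem (mulOp_mem hφb) hmem)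
      ((Cu μ).star_mem' (mulOp_mem hφb))
  · rw [← ContinuousLinearMap.adjoint_inner_right, ← ContinuousLinearMap.star_eq_adjoint,
      star_mulOp hφb, WalshSystem.oneB, L2.inner_indicatorConstLp_one]
    have h1 : ∫ x in B, (mulOp μ (fun x => (starRingEnd ℂ) (φ x)) h : Lp ℂ 2 μ) x ∂μ
        = ((∫ x in B, ‖h x‖ ∂μ : ℝ) : ℂ) := by
      rw [← integral_complex_ofReal]
      apply setIntegral_congr_ae hB
      filter_upwards [coeFn_mulOp hφb.conj h] with x hx hxB
      rw [hx, hφ, Set.indicator_of_mem hxB]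
      have hxA : (1 : ℝ) / (n + 1) ≤ ‖h x‖ := hBA hxB
      have hpos : 0 < ‖h x‖ := lt_of_lt_of_le (by positivity) hxA
      have hne : (‖h x‖ : ℂ) ≠ 0 := by exact_mod_cast hpos.ne'
      rw [map_div₀, Complex.conj_ofReal, div_mul_eq_mul_div, div_eq_iff hne, mul_comm,
        Complex.mul_conj, Complex.normSq_eq_norm_sq]
      push_cast
      ring
    rw [h1, Complex.ofReal_ne_zero]
    have hint : IntegrableOn (fun x => ‖h x‖) B μ := by
      have h2 : MemLp (h : X → ℂ) 2 (μ.restrict B) := (Lp.memLp h).restrict B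
      haveI : IsFiniteMeasure (μ.restrict B) := ⟨by
        rw [Measure.restrict_apply_univ]
        exact lt_top_iff_ne_top.2 hf⟩
      exact (h2.integrable (by norm_num)).norm
    intro h0
    rw [setIntegral_eq_zero_iff_of_nonneg_ae (ae_of_all _ fun x => norm_nonneg _) hint] at h0
    apply hp
    have h3 : ∀ᵐ x ∂μ, x ∉ B := by
      have h4 := (ae_restrict_iff' hB).1 h0
      filter_upwards [h4] with x hx hxB
      have hxA : (1 : ℝ) / (n + 1) ≤ ‖h x‖ := hBA hxB
      have hpos : 0 < ‖h x‖ := lt_of_lt_of_le (by positivity) hxA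
      exact hpos.ne' (hx hxB)
    exact measure_eq_zero_iff_ae_notMem.2 h3

end Pool.Agent.Q196.MB
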