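import Pool.Agent.Q196.MB.Maharam2
import Pool.Agent.Q196.MB.RankOne

/-!
# From the bits to a Walsh system
-/

namespace Pool.Agent.Q196.MB

open MeasureTheory Set
open scoped ENNReal NNReal

section

variable {X I : Type*} (a : I → Set X)

open Classical in
/-- The sign of the bit `ξ`. -/
noncomputable def eps (ξ : I) (x : X) : ℝ := if x ∈ a ξ then -1 else 1

theorem eps_sq (ξ : I) (x : X) : eps a ξ x * eps a ξ x = 1 := by
  rw [eps]
  split_ifs <;> norm_num

theorem eps_one (ξ : I) (x : X) : eps a ξ x = 1 ∨ eps a ξ x = -1 := by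
  rw [eps]
  split_ifs <;> simp

/-- The Walsh functions of the bits. -/
noncomputable def walsh (γ : I →₀ ZMod 2) (x : X) : ℝ := γ.prod fun ξ c => eps a ξ x ^ c.val

theorem walsh_zero (x : X) : walsh a 0 x = 1 := Finsupp.prod_zero_index

theorem walsh_add (γ δ : I →₀ ZMod 2) (x : X) :
    walsh a (γ + δ) x = walsh a γ x * walsh a δ x := by
  apply Finsupp.prod_add_index'
  · intro ξ
    simp
  · intro ξ c d
    have h := eps_sq a ξ x
    fin_cases c <;> fin_cases d
    · change eps a ξ x ^ 0 = eps a ξ x ^ 0 * eps a ξ x ^ 0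
      simp
    · change eps a ξ x ^ 1 = eps a ξ x ^ 0 * eps a ξ x ^ 1
      simp
    · change eps a ξ x ^ 1 = eps a ξ x ^ 1 * eps a ξ x ^ 0
      simp
    · change eps a ξ x ^ 0 = eps a ξ x ^ 1 * eps a ξ x ^ 1
      rw [pow_zero, pow_one, h]

theorem walsh_single (ξ : I) (x : X) : walsh a (Finsupp.single ξ 1) x = eps a ξ x := by
  rw [walsh, Finsupp.prod_single_index]
  · change eps a ξ x ^ 1 = _
    rw [pow_one]
  · change eps a ξ x ^ 0 = _
    rw [pow_zero]

theorem walsh_one (γ : I →₀ ZMod 2) (x : X) : walsh a γ x = 1 ∨ walsh a γ x = -1 := by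
  rw [walsh, Finsupp.prod]
  classical
  induction γ.support using Finset.induction_on with
  | empty => simp
  | insert ξ s hξ ih =>
    rw [Finset.prod_insert hξ]
    have h1 : eps a ξ x ^ (γ ξ).val = 1 ∨ eps a ξ x ^ (γ ξ).val = -1 := by
      rcases eps_one a ξ x with h | h
      · rw [h]
        simp
      · rw [h]
        exact neg_one_pow_eq_or ℝ _
    rcases h1 with h | h <;> rcases ih with h' | h' <;> rw [h, h'] <;> simp

theorem measurable_eps (m : MeasurableSpace X) (ξ : I) (h : MeasurableSet[m] (a ξ)) :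
    Measurable[m] (eps a ξ) := by
  unfold eps
  exact Measurable.ite h measurable_const measurable_const

theorem measurable_walsh (m : MeasurableSpace X) (γ : I →₀ ZMod 2)
    (h : ∀ ξ ∈ γ.support, MeasurableSet[m] (a ξ)) : Measurable[m] (walsh a γ) := by
  unfold walsh Finsupp.prod
  apply Finset.measurable_fun_prod
  intro ξ hξ
  exact (measurable_eps a m ξ (h ξ hξ)).pow_const _

theorem eps_eq (ξ : I) (x : X) : eps a ξ x = 1 - 2 * (a ξ).indicator (fun _ => (1 : ℝ)) x := by
  rw [eps]
  split_ifs with h
  · rw [indicator_of_mem h]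
    norm_num
  · rw [indicator_of_notMem h]
    norm_num

end

section

variable {X : Type*} {m0 : MeasurableSpace X} {P : Measure X} [IsFiniteMeasure P] {I : Type*}
  (a : I → Set X)

theorem integrable_eps (ha : ∀ ξ, MeasurableSet (a ξ)) (ξ : I) : Integrable (eps a ξ) P := by
  refine Integrable.of_bound (C := 1) (measurable_eps a m0 ξ (ha ξ)).aestronglyMeasurable
    (ae_of_all _ fun x => ?_)
  rcases eps_one a ξ x with h | h <;> rw [h] <;> simp

theorem integral_eps (ha : ∀ ξ, MeasurableSet (a ξ)) (ξ : I) {C : Set X} (hC : MeasurableSet C)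
    (h : 2 * P (a ξ ∩ C) = P C) : ∫ x in C, eps a ξ x ∂P = 0 := by
  have h1 : ∀ x, eps a ξ x = 1 - 2 * (a ξ).indicator (fun _ => (1 : ℝ)) x := eps_eq a ξ
  simp only [h1]
  have hint : Integrable ((a ξ).indicator (fun _ => (1 : ℝ))) (P.restrict C) :=
    (integrable_const (1 : ℝ)).indicator (ha ξ)
  rw [integral_sub (integrable_const _) (hint.const_mul 2), integral_const_mul,
    integral_indicator_const _ (ha ξ), integral_const]
  simp only [smul_eq_mul, mul_one, measureReal_restrict_apply_univ]
  rw [measureReal_restrict_apply (ha ξ)]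
  have h2 := congrArg ENNReal.toReal h
  rw [ENNReal.toReal_mul, ENNReal.toReal_ofNat] at h2
  change 2 * P.real (a ξ ∩ C) = P.real C at h2
  linarith

end

section

variable {X : Type*} {m0 : MeasurableSpace X} {μ : Measure X} {B : Set X} {I : Type*}
  [LinearOrder I] (a : I → Set X)

theorem walsh_mean {P : Measure X} [IsFiniteMeasure P] (ha : ∀ ξ, MeasurableSet (a ξ))
    (hind : ∀ ξ C, MeasurableSet[MeasurableSpace.generateFrom (a '' Iio ξ)] C →
      2 * P (a ξ ∩ C) = P C) (γ : I →₀ ZMod 2) (hγ : γ ≠ 0) : ∫ x, walsh a γ x ∂P = 0 := by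
  classical
  have hne : γ.support.Nonempty := Finsupp.support_nonempty_iff.2 hγ
  set ξ := γ.support.max' hne with hξ
  have hξm : ξ ∈ γ.support := γ.support.max'_mem hne
  set γ' := γ.erase ξ with hγ'
  have hsum : γ = γ' + Finsupp.single ξ 1 := by
    have h1 : γ ξ = 1 := by
      have h0 : γ ξ ≠ 0 := Finsupp.mem_support_iff.1 hξm
      generalize γ ξ = c at h0
      fin_cases c
      · exact absurd rfl h0
      · rfl
    rw [← h1, hγ', Finsupp.erase_add_single]
  have hw : ∀ x, walsh a γ x = walsh a γ' x * eps a ξ x := by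
    intro x
    conv_lhs => rw [hsum]
    rw [walsh_add, walsh_single]
  set m := MeasurableSpace.generateFrom (a '' Iio ξ) with hm
  have hle : m ≤ m0 := by
    apply MeasurableSpace.generateFrom_le
    rintro s ⟨η, _, rfl⟩
    exact ha η
  have hmeas : Measurable[m] (walsh a γ') := by
    apply measurable_walsh
    intro η hη
    apply MeasurableSpace.measurableSet_generateFrom
    refine ⟨η, ?_, rfl⟩
    rw [hγ', Finsupp.support_erase, Finset.mem_erase] at hη
    exact lt_of_le_of_ne (γ.support.le_max' η hη.2) hη.1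
  set C := {x | walsh a γ' x = 1} with hC
  have hCm : MeasurableSet[m] C := hmeas (measurableSet_singleton 1)
  have hC0 := hle C hCm
  have hval : ∀ x, walsh a γ x = 2 * C.indicator (eps a ξ) x - eps a ξ x := by
    intro x
    rw [hw]
    by_cases hx : x ∈ C
    · rw [indicator_of_mem hx]
      have : walsh a γ' x = 1 := hx
      rw [this]
      ring
    · rw [indicator_of_notMem hx]
      have : walsh a γ' x = -1 := by
        rcases walsh_one a γ' x with h | h
        · exact absurd h hx
        · exact h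
      rw [this]
      ring
  simp only [hval]
  have hie := integrable_eps (P := P) a ha ξ
  rw [integral_sub ((hie.indicator hC0).const_mul 2) hie, integral_const_mul,
    integral_indicator hC0, integral_eps a ha ξ hC0 (hind ξ C hCm)]
  have huniv := integral_eps (P := P) a ha ξ MeasurableSet.univ
    (hind ξ univ (@MeasurableSet.univ _ m))
  rw [Measure.restrict_univ] at huniv
  rw [huniv]
  simp

omit [LinearOrder I] in
theorem walsh_dense {P : Measure X} [IsFiniteMeasure P] (ha : ∀ ξ, MeasurableSet (a ξ))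
    (hgen : ∀ E, MeasurableSet E → ∃ C, MeasurableSet[MeasurableSpace.generateFrom (range a)] C ∧
      E =ᵐ[P] C) (h : X → ℂ) (hint : Integrable h P)
    (h0 : ∀ γ, ∫ x, (walsh a γ x : ℂ) * h x ∂P = 0) : h =ᵐ[P] 0 := by
  classical
  have hwi : ∀ γ, Integrable (fun x => (walsh a γ x : ℂ) * h x) P := by
    intro γ
    refine hint.bdd_mul (c := 1) ?_ ?_
    · exact (Complex.measurable_ofReal.comp
        (measurable_walsh a m0 γ fun ξ _ => ha ξ)).aestronglyMeasurable
    · refine ae_of_all _ fun x => ?_
      rcases walsh_one a γ x with h | h <;> rw [h] <;> simp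
  have key : ∀ (F : Finset I) (γ : I →₀ ZMod 2),
      ∫ x in (⋂ ξ ∈ F, a ξ), (walsh a γ x : ℂ) * h x ∂P = 0 := by
    intro F
    induction F using Finset.induction_on with
    | empty =>
      intro γ
      simpa using h0 γ
    | insert ξ F hξ ih =>
      intro γ
      have hFm : MeasurableSet (⋂ ξ ∈ F, a ξ) := F.measurableSet_biInter fun ξ _ => ha ξ
      have e1 : (⋂ η ∈ insert ξ F, a η) = (⋂ η ∈ F, a η) ∩ a ξ := by
        rw [Finset.set_biInter_insert, inter_comm]
      have e2 := ih γ
      have e3 := ih (γ + Finsupp.single ξ 1)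
      have hS := (hwi γ).integrableOn (s := ⋂ η ∈ F, a η)
      have hS' := (hwi (γ + Finsupp.single ξ 1)).integrableOn (s := ⋂ η ∈ F, a η)
      have e4 : ∫ x in (⋂ η ∈ F, a η), (a ξ).indicator (fun x => (walsh a γ x : ℂ) * h x) x ∂P
          = ∫ x in (⋂ η ∈ F, a η), ((1 / 2 : ℂ) * ((walsh a γ x : ℂ) * h x)
            - (1 / 2 : ℂ) * ((walsh a (γ + Finsupp.single ξ 1) x : ℂ) * h x)) ∂P := by
        congr 1
        ext x
        rw [walsh_add, walsh_single, eps]
        by_cases hx : x ∈ a ξ
        · rw [indicator_of_mem hx, if_pos hx]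
          push_cast
          ring
        · rw [indicator_of_notMem hx, if_neg hx]
          push_cast
          ring
      rw [setIntegral_indicator (ha ξ), integral_sub (hS.const_mul _) (hS'.const_mul _),
        integral_const_mul, integral_const_mul, e2, e3, mul_zero, sub_zero] at e4
      rw [e1]
      exact e4
  have key0 : ∀ F : Finset I, ∫ x in (⋂ ξ ∈ F, a ξ), h x ∂P = 0 := by
    intro F
    have := key F 0
    simpa only [walsh_zero, Complex.ofReal_one, one_mul] using this
  have hall : ∫ x, h x ∂P = 0 := by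
    have := key0 ∅
    simpa using this
  set m := MeasurableSpace.generateFrom (range a) with hm
  have hle : m ≤ m0 := by
    apply MeasurableSpace.generateFrom_le
    rintro s ⟨η, rfl⟩
    exact ha η
  let PS : Set (Set X) := {s | ∃ F : Finset I, s = ⋂ ξ ∈ F, a ξ}
  have hPS : m = MeasurableSpace.generateFrom PS := by
    apply le_antisymm
    · apply MeasurableSpace.generateFrom_le
      rintro s ⟨η, rfl⟩
      apply MeasurableSpace.measurableSet_generateFrom
      exact ⟨{η}, by simp⟩
    · apply MeasurableSpace.generateFrom_le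
      rintro s ⟨F, rfl⟩
      apply F.measurableSet_biInter
      intro ξ _
      exact MeasurableSpace.measurableSet_generateFrom ⟨ξ, rfl⟩
  have hpi : IsPiSystem PS := by
    rintro s ⟨F, rfl⟩ t ⟨G, rfl⟩ _
    refine ⟨F ∪ G, ?_⟩
    ext x
    simp only [mem_inter_iff, mem_iInter, Finset.mem_union]
    constructor
    · rintro ⟨h1, h2⟩ ξ (h | h)
      · exact h1 ξ h
      · exact h2 ξ h
    · intro h
      exact ⟨fun ξ hξ => h ξ (Or.inl hξ), fun ξ hξ => h ξ (Or.inr hξ)⟩
  have hC : ∀ C, MeasurableSet[m] C → ∫ x in C, h x ∂P = 0 := by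
    intro C hC
    induction C, hC using MeasurableSpace.induction_on_inter hPS hpi with
    | empty => simp
    | basic t ht =>
      obtain ⟨F, rfl⟩ := ht
      exact key0 F
    | compl t ht ih =>
      have := integral_add_compl (hle t ht) hint
      rw [ih, zero_add, hall] at this
      exact this
    | iUnion f hd hf ih =>
      rw [integral_iUnion (fun n => hle _ (hf n)) hd hint.integrableOn]
      simp [ih]
  have hE : ∀ E, MeasurableSet[m0] E → ∫ x in E, h x ∂P = 0 := by
    intro E hE
    obtain ⟨C, hCm, hEC⟩ := hgen E hE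
    rw [setIntegral_congr_set hEC]
    exact hC C hCm
  exact ae_eq_zero_of_forall_setIntegral_eq_of_sigmaFinite
    (fun s _ _ => hint.integrableOn) (fun s hs _ => hE s hs)

/-- The Walsh system of a family of bits. -/
theorem walsh_of_bits (hB : MeasurableSet B) (hf : μ B ≠ ∞) (ha : ∀ ξ, MeasurableSet (a ξ))
    (hind : ∀ ξ C, MeasurableSet[MeasurableSpace.generateFrom (a '' Iio ξ)] C →
      2 * (μ.restrict B) (a ξ ∩ C) = (μ.restrict B) C)
    (hgen : ∀ E, MeasurableSet E → ∃ C, MeasurableSet[MeasurableSpace.generateFrom (range a)] C ∧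
      E =ᵐ[μ.restrict B] C) : Nonempty (WalshSystem μ B I) := by
  haveI : IsFiniteMeasure (μ.restrict B) := ⟨by
    rw [Measure.restrict_apply_univ]
    exact lt_top_iff_ne_top.2 hf⟩
  refine ⟨{ w := walsh a, meas := fun γ => measurable_walsh a m0 γ fun ξ _ => ha ξ,
            sq := walsh_one a, zero := walsh_zero a, add := walsh_add a,
            mean := fun γ hγ => walsh_mean a ha hind γ hγ, dense := ?_ }⟩
  intro h h0
  have h2 : MemLp (h : X → ℂ) 2 (μ.restrict B) := (Lp.memLp h).restrict B
  have hint : Integrable (h : X → ℂ) (μ.restrict B) := h2.integrable (by norm_num)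
  have h3 := walsh_dense a ha hgen h hint h0
  exact (ae_restrict_iff' hB).1 h3

end

end Pool.Agent.Q196.MB
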