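import Mathlib

/-!
# Three involutions with a spectral gap

Three involutions of a set `G` with a common fixed point `o` and a height function that is raised,
at every other point, by at least two of the three: then the mean of the three permutation operators
on `ℓ²(G)` has norm at most `17/18` on the vectors vanishing at `o`.  Hence its powers converge in
norm to the projection on the coordinate `o`.
-/

namespace Pool.Agent.Q196.MB

open InnerProductSpace
open scoped ENNReal lp

variable {G : Type*}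

/-- `ℓ²(G)`. -/
noncomputable abbrev L2 (G : Type*) := lp (fun _ : G => ℂ) 2

theorem summable_sq (f : L2 G) : Summable fun γ => ‖f γ‖ ^ 2 := by
  have := (lp.memℓp f).summable (by norm_num : 0 < (2 : ℝ≥0∞).toReal)
  simpa using this

theorem norm_sq_eq (f : L2 G) : ‖f‖ ^ 2 = ∑' γ, ‖f γ‖ ^ 2 := by
  have := lp.norm_rpow_eq_tsum (by norm_num : 0 < (2 : ℝ≥0∞).toReal) f
  simpa using this

theorem memℓp_two {f : G → ℂ} (h : Summable fun γ => ‖f γ‖ ^ 2) : Memℓp f 2 := by
  apply memℓp_gen
  simpa using h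

/-- The permutation operator, as an isometry. -/
noncomputable def permI (g : Equiv.Perm G) : L2 G →ₗᵢ[ℂ] L2 G where
  toFun f := ⟨fun γ => f (g.symm γ), memℓp_two ((g.symm.summable_iff).2 (summable_sq f))⟩
  map_add' _ _ := rfl
  map_smul' _ _ := rfl
  norm_map' f := by
    have h : ‖(⟨fun γ => f (g.symm γ), memℓp_two ((g.symm.summable_iff).2 (summable_sq f))⟩ :
        L2 G)‖ ^ 2 = ‖f‖ ^ 2 := by
      rw [norm_sq_eq, norm_sq_eq]
      exact g.symm.tsum_eq (fun γ => ‖f γ‖ ^ 2)
    exact (sq_eq_sq₀ (norm_nonneg _) (norm_nonneg _)).1 h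

/-- The permutation operator: it maps the basis vector `e_γ` to `e_{g γ}`. -/
noncomputable def perm (g : Equiv.Perm G) : L2 G →L[ℂ] L2 G := (permI g).toContinuousLinearMap

@[simp] theorem perm_apply (g : Equiv.Perm G) (f : L2 G) (γ : G) : perm g f γ = f (g.symm γ) := rfl

@[simp] theorem norm_perm (g : Equiv.Perm G) (f : L2 G) : ‖perm g f‖ = ‖f‖ := (permI g).norm_map f

theorem perm_mul (g h : Equiv.Perm G) : perm (g * h) = perm g * perm h := by
  ext f γ
  rfl

theorem perm_one : perm (1 : Equiv.Perm G) = 1 := by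
  ext f γ
  rfl

theorem star_perm (g : Equiv.Perm G) : star (perm g) = perm g⁻¹ := by
  rw [ContinuousLinearMap.star_eq_adjoint]
  symm
  rw [ContinuousLinearMap.eq_adjoint_iff]
  intro x y
  rw [lp.inner_eq_tsum, lp.inner_eq_tsum]
  rw [← g.tsum_eq (fun γ => inner ℂ (x γ) (perm g y γ))]
  apply tsum_congr
  intro γ
  simp only [perm_apply]
  change inner ℂ (x (g γ)) (y γ) = inner ℂ (x (g γ)) (y (g.symm (g γ)))
  rw [Equiv.symm_apply_apply]

theorem perm_single [DecidableEq G] (g : Equiv.Perm G) (γ : G) (c : ℂ) :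
    perm g (lp.single 2 γ c) = lp.single 2 (g γ) c := by
  ext δ
  rw [perm_apply, lp.single_apply, lp.single_apply]
  by_cases h : γ = g.symm δ
  · subst h
    simp
  · have h2 : g γ ≠ δ := by
      rintro rfl
      simp at h
    rw [Pi.single_eq_of_ne (fun h' => h h'.symm), Pi.single_eq_of_ne (fun h' => h2 h'.symm)]

section gap

variable (g : Fin 3 → Equiv.Perm G) (L : G → ℕ)

/-- The weights. -/
noncomputable def wt (i : Fin 3) (γ : G) : ℝ :=
  if L γ < L (g i γ) then 2 / 3 else if L (g i γ) < L γ then 3 / 2 else 1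

theorem wt_pos (i : Fin 3) (γ : G) : 0 < wt g L i γ := by
  rw [wt]
  split_ifs <;> norm_num

theorem wt_le (i : Fin 3) (γ : G) : wt g L i γ ≤ 3 / 2 := by
  rw [wt]
  split_ifs <;> norm_num

theorem wt_inv (hg : ∀ i γ, g i (g i γ) = γ) (i : Fin 3) (γ : G) :
    wt g L i (g i γ) = (wt g L i γ)⁻¹ := by
  rw [wt, wt, hg]
  rcases lt_trichotomy (L γ) (L (g i γ)) with h | h | h
  · rw [if_neg h.not_gt, if_pos h, if_pos h]
    norm_num
  · rw [if_neg h.le.not_gt, if_neg h.ge.not_gt, if_neg h.ge.not_gt, if_neg h.le.not_gt]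
    norm_num
  · rw [if_pos h, if_neg h.not_gt, if_pos h]
    norm_num

theorem wt_sum {γ : G} (h : ∃ i, ∀ j ≠ i, L γ < L (g j γ)) : ∑ i, wt g L i γ ≤ 17 / 6 := by
  obtain ⟨i, hi⟩ := h
  have h1 : ∀ j ≠ i, wt g L j γ = 2 / 3 := fun j hj => by rw [wt, if_pos (hi j hj)]
  have h2 := wt_le g L i γ
  rw [Fin.sum_univ_three]
  fin_cases i
  · rw [h1 1 (by decide), h1 2 (by decide)]
    simp only [Fin.zero_eta] at h2
    linarith
  · rw [h1 0 (by decide), h1 2 (by decide)]
    simp only [Fin.mk_one] at h2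
    linarith
  · rw [h1 0 (by decide), h1 1 (by decide)]
    simp only [Fin.reduceFinMk] at h2
    linarith

theorem gap_aux (hg : ∀ i γ, g i (g i γ) = γ) (o : G) (ho : ∀ i, g i o = o)
    (hL : ∀ γ ≠ o, ∃ i, ∀ j ≠ i, L γ < L (g j γ)) (f : L2 G) (hf : f o = 0) :
    ‖∑ i, perm (g i) f‖ ≤ 17 / 6 * ‖f‖ := by
  have hgs : ∀ i γ, (g i).symm γ = g i γ := fun i γ => by rw [Equiv.symm_apply_eq, hg]
  have hsf := summable_sq f
  have hval : ∀ γ, (∑ i, perm (g i) f : L2 G) γ = ∑ i, f (g i γ) := by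
    intro γ
    rw [lp.coeFn_sum, Finset.sum_apply]
    exact Finset.sum_congr rfl fun i _ => by rw [perm_apply, hgs]
  have hs1 : ∀ i, Summable fun γ => (wt g L i γ)⁻¹ * ‖f (g i γ)‖ ^ 2 := by
    intro i
    have h1 : Summable fun γ => wt g L i γ * ‖f γ‖ ^ 2 := by
      refine Summable.of_nonneg_of_le (fun γ => ?_) (fun γ => ?_) (hsf.mul_left (3 / 2))
      · have := wt_pos g L i γ
        positivity
      · have := wt_le g L i γ
        gcongr
    have h2 := ((g i).summable_iff (f := fun γ => wt g L i γ * ‖f γ‖ ^ 2)).2 h1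
    refine h2.congr fun γ => ?_
    simp only [Function.comp_apply]
    rw [wt_inv g L hg]
  have hs2 : ∀ i, Summable fun γ => wt g L i γ * ‖f γ‖ ^ 2 := by
    intro i
    refine Summable.of_nonneg_of_le (fun γ => ?_) (fun γ => ?_) (hsf.mul_left (3 / 2))
    · have := wt_pos g L i γ
      positivity
    · have := wt_le g L i γ
      gcongr
  have ht : ∀ i, ∑' γ, (wt g L i γ)⁻¹ * ‖f (g i γ)‖ ^ 2 = ∑' γ, wt g L i γ * ‖f γ‖ ^ 2 := by
    intro i
    rw [← (g i).tsum_eq (fun γ => wt g L i γ * ‖f γ‖ ^ 2)]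
    exact tsum_congr fun γ => by rw [wt_inv g L hg]
  have hpt : ∀ γ, ‖(∑ i, perm (g i) f : L2 G) γ‖ ^ 2
      ≤ 17 / 6 * ∑ i, (wt g L i γ)⁻¹ * ‖f (g i γ)‖ ^ 2 := by
    intro γ
    rw [hval]
    have hnn : 0 ≤ ∑ i, (wt g L i γ)⁻¹ * ‖f (g i γ)‖ ^ 2 := by
      apply Finset.sum_nonneg
      intro i _
      have := wt_pos g L i γ
      positivity
    by_cases hγ : γ = o
    · subst hγ
      have : ∑ i, f (g i γ) = 0 := by
        apply Finset.sum_eq_zero
        intro i _
        rw [ho, hf]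
      rw [this, norm_zero, zero_pow two_ne_zero]
      exact mul_nonneg (by norm_num) hnn
    · calc ‖∑ i, f (g i γ)‖ ^ 2 ≤ (∑ i, ‖f (g i γ)‖) ^ 2 := by
            gcongr
            exact norm_sum_le _ _
        _ ≤ (∑ i, wt g L i γ) * ∑ i, (wt g L i γ)⁻¹ * ‖f (g i γ)‖ ^ 2 := by
            apply Finset.sum_sq_le_sum_mul_sum_of_sq_eq_mul
            · intro i _
              exact (wt_pos g L i γ).le
            · intro i _
              have := wt_pos g L i γ
              positivity
            · intro i _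
              have := (wt_pos g L i γ).ne'
              field_simp
        _ ≤ 17 / 6 * ∑ i, (wt g L i γ)⁻¹ * ‖f (g i γ)‖ ^ 2 := by
            gcongr
            exact wt_sum g L (hL γ hγ)
  have hmain : ‖∑ i, perm (g i) f‖ ^ 2 ≤ (17 / 6 * ‖f‖) ^ 2 := by
    rw [norm_sq_eq, mul_pow, norm_sq_eq f]
    calc ∑' γ, ‖(∑ i, perm (g i) f : L2 G) γ‖ ^ 2
        ≤ ∑' γ, 17 / 6 * ∑ i, (wt g L i γ)⁻¹ * ‖f (g i γ)‖ ^ 2 := by
          refine Summable.tsum_le_tsum hpt (summable_sq _) ?_
          exact (summable_sum fun i _ => hs1 i).mul_left _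
      _ = 17 / 6 * ∑ i, ∑' γ, (wt g L i γ)⁻¹ * ‖f (g i γ)‖ ^ 2 := by
          rw [tsum_mul_left, Summable.tsum_finsetSum fun i _ => hs1 i]
      _ = 17 / 6 * ∑' γ, ∑ i, wt g L i γ * ‖f γ‖ ^ 2 := by
          rw [Summable.tsum_finsetSum fun i _ => hs2 i]
          congr 1
          exact Finset.sum_congr rfl fun i _ => ht i
      _ ≤ 17 / 6 * ∑' γ, 17 / 6 * ‖f γ‖ ^ 2 := by
          refine mul_le_mul_of_nonneg_left (Summable.tsum_le_tsum (fun γ => ?_)
            (summable_sum fun i _ => hs2 i) (hsf.mul_left _)) (by norm_num)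
          rw [← Finset.sum_mul]
          by_cases hγ : γ = o
          · subst hγ
            simp [hf]
          · gcongr
            exact wt_sum g L (hL γ hγ)
      _ = (17 / 6) ^ 2 * ∑' γ, ‖f γ‖ ^ 2 := by
          rw [tsum_mul_left]
          ring
  exact le_of_sq_le_sq hmain (by positivity)

/-- The mean of the three permutation operators. -/
noncomputable def meanOp : L2 G →L[ℂ] L2 G := (3 : ℂ)⁻¹ • ∑ i, perm (g i)

open Classical in
/-- The projection on the coordinate `o`. -/
noncomputable def projO (o : G) : L2 G →L[ℂ] L2 G :=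
  rankOne ℂ (lp.single 2 o (1 : ℂ)) (lp.single 2 o (1 : ℂ))

open Classical in
theorem projO_apply (o : G) (f : L2 G) : projO o f = lp.single 2 o (f o) := by
  rw [projO, rankOne_apply, lp.inner_single_left]
  ext γ
  by_cases h : γ = o
  · subst h
    simp
  · simp [Pi.single_eq_of_ne h]

theorem tendsto_meanOp (hg : ∀ i γ, g i (g i γ) = γ) (o : G) (ho : ∀ i, g i o = o)
    (hL : ∀ γ ≠ o, ∃ i, ∀ j ≠ i, L γ < L (g j γ)) :
    Filter.Tendsto (fun n : ℕ => meanOp g ^ n) Filter.atTop (nhds (projO o)) := by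
  classical
  set T := meanOp g with hT
  set P := projO o with hP
  have hTf : ∀ f : L2 G, T f = (3 : ℂ)⁻¹ • ∑ i, perm (g i) f := by
    intro f
    rw [hT, meanOp, ContinuousLinearMap.smul_apply, ContinuousLinearMap.sum_apply]
  have hTP : T * P = P := by
    ext1 f
    rw [ContinuousLinearMap.mul_apply, hTf, hP, projO_apply]
    have : ∀ i, perm (g i) (lp.single 2 o (f o)) = lp.single 2 o (f o) := fun i => by
      rw [perm_single, ho]
    simp only [this]
    rw [Finset.sum_const, Finset.card_univ, Fintype.card_fin, ← Nat.cast_smul_eq_nsmul ℂ, smul_smul]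
    norm_num
  have hos : ∀ i, (g i).symm o = o := fun i => by rw [Equiv.symm_apply_eq, ho]
  have hTo : ∀ f : L2 G, T f o = f o := by
    intro f
    rw [hTf, lp.coeFn_smul, Pi.smul_apply, lp.coeFn_sum, Finset.sum_apply]
    simp only [perm_apply, hos]
    rw [Finset.sum_const, Finset.card_univ, Fintype.card_fin, nsmul_eq_mul]
    simp
  have hPT : P * T = P := by
    ext1 f
    rw [ContinuousLinearMap.mul_apply, hP, projO_apply, projO_apply, hTo]
  have hPP : P * P = P := by
    ext1 f
    rw [ContinuousLinearMap.mul_apply, hP, projO_apply, projO_apply]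
    simp
  have hnorm : ‖T - P‖ ≤ 17 / 18 := by
    refine ContinuousLinearMap.opNorm_le_bound _ (by norm_num) fun f => ?_
    have h1 : (T - P) f = T (f - P f) := by
      rw [map_sub, ContinuousLinearMap.sub_apply]
      congr 1
      exact (congrArg (fun S : L2 G →L[ℂ] L2 G => S f) hTP).symm
    have h2 : (f - P f) o = 0 := by
      rw [hP, projO_apply, lp.coeFn_sub, Pi.sub_apply, lp.single_apply_self, sub_self]
    have h3 := gap_aux g L hg o ho hL (f - P f) h2
    have h4 : ‖f - P f‖ ≤ ‖f‖ := by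
      have : ‖f - P f‖ ^ 2 ≤ ‖f‖ ^ 2 := by
        rw [norm_sq_eq, norm_sq_eq]
        refine Summable.tsum_le_tsum (fun γ => ?_) (summable_sq _) (summable_sq _)
        rw [hP, projO_apply, lp.coeFn_sub, Pi.sub_apply]
        by_cases h : γ = o
        · subst h
          simp
        · rw [lp.single_apply, Pi.single_eq_of_ne h, sub_zero]
      exact le_of_sq_le_sq this (norm_nonneg _)
    rw [h1, hTf, norm_smul, norm_inv, Complex.norm_ofNat]
    calc (3 : ℝ)⁻¹ * ‖∑ i, perm (g i) (f - P f)‖ ≤ (3 : ℝ)⁻¹ * (17 / 6 * ‖f‖) := by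
          gcongr
          exact h3.trans (by gcongr)
      _ = 17 / 18 * ‖f‖ := by ring
  have hpow : ∀ n : ℕ, T ^ (n + 1) = (T - P) ^ (n + 1) + P := by
    intro n
    induction n with
    | zero => simp
    | succ n ih =>
      have e1 : P * (T - P) = 0 := by rw [mul_sub, hPT, hPP, sub_self]
      have e2 : (T - P) ^ (n + 1) * P = 0 := by
        rw [pow_succ, mul_assoc, sub_mul, hTP, hPP, sub_self, mul_zero]
      calc T ^ (n + 1 + 1) = T ^ (n + 1) * T := pow_succ _ _
        _ = ((T - P) ^ (n + 1) + P) * ((T - P) + P) := by rw [ih, sub_add_cancel]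
        _ = (T - P) ^ (n + 1 + 1) + P := by
          rw [add_mul, mul_add, mul_add, e1, e2, hPP, ← pow_succ]
          simp
  rw [← Filter.tendsto_add_atTop_iff_nat 1]
  have hz : Filter.Tendsto (fun n : ℕ => (T - P) ^ (n + 1)) Filter.atTop (nhds 0) := by
    refine (tendsto_pow_atTop_nhds_zero_of_norm_lt_one ?_).comp (Filter.tendsto_add_atTop_nat 1)
    exact hnorm.trans_lt (by norm_num)
  have := hz.add_const P
  rw [zero_add] at this
  exact this.congr fun n => (hpow n).symm

end gap

end Pool.Agent.Q196.MB
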