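import Mathlib

/-!
# Three additive involutions with a height function

For every infinite set `I`, the group `I →₀ ZMod 2` has three additive involutions and a height
function which is raised, at every nonzero element, by at least two of the three involutions.

With `V = (I × ℕ) →₀ ZMod 2` and the shift `t` of `V`, the involutions of `V × V` are
`(a, b) ↦ (a + t b, b)`, `(a, b) ↦ (a, b + t a)` and `(a, b) ↦ (a + t (a + b), b + t (a + b))`.
-/

namespace Pool.Agent.Q196.MB

/-- The space `V`. -/
abbrev VV (I : Type*) := (I × ℕ) →₀ ZMod 2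

variable {I : Type*}

/-- The shift. -/
noncomputable def sh : VV I →+ VV I :=
  Finsupp.mapDomain.addMonoidHom (fun p : I × ℕ => (p.1, p.2 + 1))

/-- The height on `V`. -/
def ht (v : VV I) : ℕ := v.support.sup fun p => p.2 + 1

theorem two_self (v : VV I) : v + v = 0 := by
  ext p
  rw [Finsupp.add_apply, Finsupp.zero_apply]
  exact CharTwo.add_self_eq_zero _

theorem ht_zero : ht (0 : VV I) = 0 := by simp [ht]

theorem ht_add_le (v w : VV I) : ht (v + w) ≤ max (ht v) (ht w) := by
  classical
  rw [ht, Finset.sup_le_iff]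
  intro p hp
  have := Finsupp.support_add hp
  rw [Finset.mem_union] at this
  rcases this with h | h
  · exact (Finset.le_sup (f := fun p : I × ℕ => p.2 + 1) h).trans (le_max_left _ _)
  · exact (Finset.le_sup (f := fun p : I × ℕ => p.2 + 1) h).trans (le_max_right _ _)

theorem sh_inj : Function.Injective (fun p : I × ℕ => (p.1, p.2 + 1)) := by
  rintro ⟨a, b⟩ ⟨c, d⟩ h
  simpa using h

theorem ht_sh {v : VV I} (hv : v ≠ 0) : ht v + 1 ≤ ht (sh v) := by
  classical
  have hne : v.support.Nonempty := Finsupp.support_nonempty_iff.2 hv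
  obtain ⟨p, hp, hp2⟩ := Finset.exists_mem_eq_sup _ hne (fun p : I × ℕ => p.2 + 1)
  have h1 : (p.1, p.2 + 1) ∈ (sh v).support := by
    change _ ∈ (Finsupp.mapDomain _ v).support
    rw [Finsupp.mapDomain_support_of_injective sh_inj]
    exact Finset.mem_image.2 ⟨p, hp, rfl⟩
  have h2 := Finset.le_sup (f := fun p : I × ℕ => p.2 + 1) h1
  rw [ht, hp2]
  exact h2

/-- Raising of the height. -/
theorem ht_raise {a b : VV I} {n : ℕ} (hn : 0 < n) (ha : ht a ≤ n) (hb : ht b = n) :
    n < ht (a + sh b) := by
  have hb0 : b ≠ 0 := by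
    rintro rfl
    rw [ht_zero] at hb
    omega
  have h1 := ht_sh hb0
  have h2 : sh b = (a + sh b) + a := by
    rw [add_comm a (sh b), add_assoc, two_self, add_zero]
  have h3 := ht_add_le (a + sh b) a
  rw [← h2] at h3
  rcases le_max_iff.1 h3 with h | h <;> omega

/-- The height on `V × V`. -/
def hh (p : VV I × VV I) : ℕ := max (ht p.1) (ht p.2)

/-- The three involutions of `V × V`. -/
noncomputable def gv : Fin 3 → VV I × VV I → VV I × VV I
  | 0, p => (p.1 + sh p.2, p.2)
  | 1, p => (p.1, p.2 + sh p.1)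
  | 2, p => (p.1 + sh (p.1 + p.2), p.2 + sh (p.1 + p.2))

theorem add_add_self (v w : VV I) : v + w + w = v := by
  rw [add_assoc, two_self, add_zero]

theorem gv_gv (i : Fin 3) (p : VV I × VV I) : gv i (gv i p) = p := by
  obtain ⟨a, b⟩ := p
  fin_cases i
  · change (a + sh b + sh b, b) = (a, b)
    rw [add_add_self]
  · change (a, b + sh a + sh a) = (a, b)
    rw [add_add_self]
  · change (a + sh (a + b) + sh (a + sh (a + b) + (b + sh (a + b))),
      b + sh (a + b) + sh (a + sh (a + b) + (b + sh (a + b)))) = (a, b)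
    have : a + sh (a + b) + (b + sh (a + b)) = a + b := by
      rw [add_add_add_comm, two_self, add_zero]
    rw [this, add_add_self, add_add_self]

theorem gv_add (i : Fin 3) (p q : VV I × VV I) : gv i (p + q) = gv i p + gv i q := by
  obtain ⟨a, b⟩ := p
  obtain ⟨c, d⟩ := q
  fin_cases i
  · change (a + c + sh (b + d), b + d) = (a + sh b + (c + sh d), b + d)
    rw [map_add, add_add_add_comm]
  · change (a + c, b + d + sh (a + c)) = (a + c, b + sh a + (d + sh c))
    rw [map_add, add_add_add_comm]
  · change (a + c + sh (a + c + (b + d)), b + d + sh (a + c + (b + d))) =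
      (a + sh (a + b) + (c + sh (c + d)), b + sh (a + b) + (d + sh (c + d)))
    rw [add_add_add_comm a c b d, map_add, add_add_add_comm a c, add_add_add_comm b d]

theorem gv_raise (p : VV I × VV I) (hp : p ≠ 0) : ∃ i, ∀ j ≠ i, hh p < hh (gv j p) := by
  obtain ⟨a, b⟩ := p
  have ha : ht a ≤ hh (a, b) := le_max_left _ _
  have hb : ht b ≤ hh (a, b) := le_max_right _ _
  have hc : ht (a + b) ≤ hh (a, b) := ht_add_le a b
  have key : ∀ v : VV I, ht v = 0 → v = 0 := by
    intro v hv
    by_contra h0
    have h1 := ht_sh h0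
    obtain ⟨q, hq, hq2⟩ := Finset.exists_mem_eq_sup _ (Finsupp.support_nonempty_iff.2 h0)
      (fun p : I × ℕ => p.2 + 1)
    rw [ht, hq2] at hv
    omega
  have hn : 0 < hh (a, b) := by
    rcases Nat.eq_zero_or_pos (hh (a, b)) with h | h
    · exfalso
      apply hp
      have h1 : a = 0 := key a (by omega)
      have h2 : b = 0 := key b (by omega)
      rw [h1, h2]
      rfl
    · exact h
  set n := hh (a, b) with hnn
  have hmax : ht a = n ∨ ht b = n := by
    rcases max_choice (ht a) (ht b) with h | h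
    · left
      exact h.symm
    · right
      exact h.symm
  have r0 : ht b = n → n < hh (gv 0 (a, b)) := fun h =>
    (ht_raise hn ha h).trans_le (le_max_left _ _)
  have r1 : ht a = n → n < hh (gv 1 (a, b)) := fun h =>
    (ht_raise hn hb h).trans_le (le_max_right _ _)
  have r2 : ht (a + b) = n → n < hh (gv 2 (a, b)) := fun h =>
    (ht_raise hn ha h).trans_le (le_max_left _ _)
  by_cases h1 : ht b = n
  · by_cases h2 : ht a = n
    · refine ⟨2, fun j hj => ?_⟩
      fin_cases j
      · exact r0 h1
      · exact r1 h2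
      · exact absurd rfl hj
    · have h3 : ht (a + b) = n := by
        by_contra h3
        have h4 := ht_add_le (a + b) a
        have h5 : a + b + a = b := by rw [add_comm a b, add_add_self]
        rw [h5] at h4
        rcases le_max_iff.1 h4 with h | h <;> omega
      refine ⟨1, fun j hj => ?_⟩
      fin_cases j
      · exact r0 h1
      · exact absurd rfl hj
      · exact r2 h3
  · have h2 : ht a = n := by tauto
    have h3 : ht (a + b) = n := by
      by_contra h3
      have h4 := ht_add_le (a + b) b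
      rw [add_add_self] at h4
      rcases le_max_iff.1 h4 with h | h <;> omega
    refine ⟨0, fun j hj => ?_⟩
    fin_cases j
    · exact absurd rfl hj
    · exact r1 h2
    · exact r2 h3

/-- The involutions as additive equivalences. -/
noncomputable def ge (i : Fin 3) : (VV I × VV I) ≃+ (VV I × VV I) where
  toFun := gv i
  invFun := gv i
  left_inv := gv_gv i
  right_inv := gv_gv i
  map_add' := gv_add i

/-- **Three additive involutions and a height function on `I →₀ ZMod 2`.** -/
theorem exists_involutions (I : Type*) [Infinite I] :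
    ∃ (g : Fin 3 → ((I →₀ ZMod 2) ≃+ (I →₀ ZMod 2))) (L : (I →₀ ZMod 2) → ℕ),
      (∀ i γ, g i (g i γ) = γ) ∧ ∀ γ ≠ 0, ∃ i, ∀ j ≠ i, L γ < L (g j γ) := by
  have hcard : Cardinal.mk ((I × ℕ) ⊕ (I × ℕ)) = Cardinal.mk I := by
    have h0 : Cardinal.aleph0 ≤ Cardinal.mk I := Cardinal.aleph0_le_mk I
    have h1 : Cardinal.mk (I × ℕ) = Cardinal.mk I := by
      rw [Cardinal.mk_prod, Cardinal.mk_nat, Cardinal.lift_aleph0, Cardinal.lift_uzero,
        Cardinal.mul_aleph0_eq h0]
    rw [Cardinal.mk_sum, Cardinal.lift_id, h1, Cardinal.add_eq_self h0]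
  obtain ⟨e⟩ := Cardinal.eq.1 hcard
  let Ψ : (VV I × VV I) ≃+ (I →₀ ZMod 2) :=
    (Finsupp.sumFinsuppAddEquivProdFinsupp (M := ZMod 2) (α := I × ℕ) (β := I × ℕ)).symm.trans
      (Finsupp.domCongr e)
  refine ⟨fun i => (Ψ.symm.trans (ge i)).trans Ψ, fun γ => hh (Ψ.symm γ), ?_, ?_⟩
  · intro i γ
    change Ψ (gv i (Ψ.symm (Ψ (gv i (Ψ.symm γ))))) = γ
    rw [AddEquiv.symm_apply_apply, gv_gv, AddEquiv.apply_symm_apply]
  · intro γ hγ
    have h0 : Ψ.symm γ ≠ 0 := by
      intro h
      apply hγ
      rw [← Ψ.apply_symm_apply γ, h, map_zero]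
    obtain ⟨i, hi⟩ := gv_raise _ h0
    refine ⟨i, fun j hj => ?_⟩
    change hh (Ψ.symm γ) < hh (Ψ.symm (Ψ (gv j (Ψ.symm γ))))
    rw [AddEquiv.symm_apply_apply]
    exact hi j hj

end Pool.Agent.Q196.MB
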