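import Mathlib

/-!
# Maharam's lemma

`(X, m0, P)` is a finite measure space and `m ≤ m0` a sub-σ-algebra over which `P` is relatively
atomless.
-/

namespace Pool.Agent.Q196.MB

open MeasureTheory Set
open scoped ENNReal NNReal

/-- No set `D` of positive measure has all its measurable subsets of the form `D ∩ C` with `C` in
the σ-algebra `m`, modulo null sets. -/
def RelAtomless {X : Type*} (m : MeasurableSpace X) {m0 : MeasurableSpace X} (P : Measure X) :
    Prop :=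
  ∀ D, MeasurableSet D → P D ≠ 0 → ∃ E, MeasurableSet E ∧
    ∀ C, MeasurableSet[m] C → ¬ (E =ᵐ[P.restrict D] C)

/-- The conclusion of one step of the construction of the bits. -/
def Step {X : Type*} (m : MeasurableSpace X) {m0 : MeasurableSpace X} (P : Measure X)
    (b a : Set X) : Prop :=
  MeasurableSet a ∧ (∀ C, MeasurableSet[m] C → 2 * P (a ∩ C) = P C) ∧
    ∃ h, MeasurableSet[m] h ∧ a ∩ h ⊆ b ∧ b \ h ⊆ a

section

variable {X : Type*} {m m0 : MeasurableSpace X} {P : Measure X} [IsFiniteMeasure P]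

theorem halve (hm : m ≤ m0) (hP : RelAtomless m P) {D : Set X} (hD : MeasurableSet D)
    (hD0 : P D ≠ 0) : ∃ D', D' ⊆ D ∧ MeasurableSet D' ∧ P D' ≠ 0 ∧
      ∀ C, MeasurableSet[m] C → 2 * P (D' ∩ C) ≤ P (D ∩ C) := by
  obtain ⟨E, hE, hEC⟩ := hP D hD hD0
  have hDE : MeasurableSet (D ∩ E) := hD.inter hE
  have hDE' : MeasurableSet (D \ E) := hD.diff hE
  haveI : IsFiniteMeasure ((P.restrict (D ∩ E)).trim hm) := isFiniteMeasure_trim hm
  haveI : IsFiniteMeasure ((P.restrict (D \ E)).trim hm) := isFiniteMeasure_trim hm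
  obtain ⟨s, hs, h1, h2⟩ := @hahn_decomposition X m ((P.restrict (D ∩ E)).trim hm)
    ((P.restrict (D \ E)).trim hm) _ _
  have hs0 := hm s hs
  have a1 : ∀ t, MeasurableSet[m] t → t ⊆ s → P (t ∩ (D \ E)) ≤ P (t ∩ (D ∩ E)) := by
    intro t ht hts
    have := h1 t ht hts
    rwa [trim_measurableSet_eq hm ht, trim_measurableSet_eq hm ht, Measure.restrict_apply (hm t ht),
      Measure.restrict_apply (hm t ht)] at this
  have a2 : ∀ t, MeasurableSet[m] t → t ⊆ sᶜ → P (t ∩ (D ∩ E)) ≤ P (t ∩ (D \ E)) := by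
    intro t ht hts
    have := h2 t ht hts
    rwa [trim_measurableSet_eq hm ht, trim_measurableSet_eq hm ht, Measure.restrict_apply (hm t ht),
      Measure.restrict_apply (hm t ht)] at this
  refine ⟨((D ∩ E) \ s) ∪ ((D \ E) ∩ s), ?_, (hDE.diff hs0).union (hDE'.inter hs0), ?_, ?_⟩
  · rintro x (⟨⟨hx, _⟩, _⟩ | ⟨⟨hx, _⟩, _⟩) <;> exact hx
  · intro h0
    have h3 := measure_mono_null subset_union_left h0
    have h4 := measure_mono_null subset_union_right h0
    apply hEC s hs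
    have h5 : ∀ᵐ x ∂P, x ∉ (D ∩ E) \ s := measure_eq_zero_iff_ae_notMem.1 h3
    have h6 : ∀ᵐ x ∂P, x ∉ (D \ E) ∩ s := measure_eq_zero_iff_ae_notMem.1 h4
    have h7 : ∀ᵐ x ∂(P.restrict D), x ∈ E ↔ x ∈ s := by
      rw [ae_restrict_iff' hD]
      filter_upwards [h5, h6] with x h5 h6 hx
      constructor
      · intro hE
        by_contra hs
        exact h5 ⟨⟨hx, hE⟩, hs⟩
      · intro hs
        by_contra hE
        exact h6 ⟨⟨hx, hE⟩, hs⟩
    filter_upwards [h7] with x hx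
    exact propext hx
  · intro C hC
    have hC0 := hm C hC
    have e1 : P ((((D ∩ E) \ s) ∪ ((D \ E) ∩ s)) ∩ C)
        = P ((C \ s) ∩ (D ∩ E)) + P ((C ∩ s) ∩ (D \ E)) := by
      rw [← measure_union]
      · congr 1
        ext x
        simp only [mem_inter_iff, mem_union, mem_diff]
        tauto
      · rw [Set.disjoint_left]
        rintro x ⟨_, _, hx⟩ ⟨_, _, hx'⟩
        exact hx' hx
      · exact (hC0.inter hs0).inter hDE'
    have e2 : P (D ∩ C) = P ((C \ s) ∩ (D ∩ E)) + P ((C \ s) ∩ (D \ E))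
        + (P ((C ∩ s) ∩ (D \ E)) + P ((C ∩ s) ∩ (D ∩ E))) := by
      rw [← measure_union, ← measure_union, ← measure_union]
      · congr 1
        ext x
        simp only [mem_inter_iff, mem_union, mem_diff]
        tauto
      · rw [Set.disjoint_left]
        rintro x hx hx'
        simp only [mem_inter_iff, mem_union, mem_diff] at hx hx'
        tauto
      · exact ((hC0.inter hs0).inter hDE').union ((hC0.inter hs0).inter hDE)
      · rw [Set.disjoint_left]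
        rintro x hx hx'
        simp only [mem_inter_iff, mem_union, mem_diff] at hx hx'
        tauto
      · exact (hC0.inter hs0).inter hDE
      · rw [Set.disjoint_left]
        rintro x hx hx'
        simp only [mem_inter_iff, mem_union, mem_diff] at hx hx'
        tauto
      · exact (hC0.diff hs0).inter hDE'
    rw [e1, e2]
    have b1 := a1 (C ∩ s) (hC.inter hs) inter_subset_right
    have b2 := a2 (C \ s) (hC.diff hs) (fun x hx => hx.2)
    calc 2 * (P ((C \ s) ∩ (D ∩ E)) + P ((C ∩ s) ∩ (D \ E)))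
        = P ((C \ s) ∩ (D ∩ E)) + P ((C \ s) ∩ (D ∩ E))
          + (P ((C ∩ s) ∩ (D \ E)) + P ((C ∩ s) ∩ (D \ E))) := by ring
      _ ≤ _ := by gcongr

theorem halve_iter (hm : m ≤ m0) (hP : RelAtomless m P) (n : ℕ) :
    ∀ {D : Set X}, MeasurableSet D → P D ≠ 0 → ∃ D', D' ⊆ D ∧ MeasurableSet D' ∧ P D' ≠ 0 ∧
      ∀ C, MeasurableSet[m] C → 2 ^ n * P (D' ∩ C) ≤ P (D ∩ C) := by
  induction n with
  | zero =>
    intro D hD hD0
    exact ⟨D, subset_rfl, hD, hD0, fun C _ => by simp⟩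
  | succ n ih =>
    intro D hD hD0
    obtain ⟨D', h1, h2, h3, h4⟩ := ih hD hD0
    obtain ⟨D'', g1, g2, g3, g4⟩ := halve hm hP h2 h3
    refine ⟨D'', g1.trans h1, g2, g3, fun C hC => ?_⟩
    calc 2 ^ (n + 1) * P (D'' ∩ C) = 2 ^ n * (2 * P (D'' ∩ C)) := by rw [pow_succ, mul_assoc]
      _ ≤ 2 ^ n * P (D' ∩ C) := by gcongr; exact g4 C hC
      _ ≤ P (D ∩ C) := h4 C hC

omit [IsFiniteMeasure P] in
theorem exhaust [IsFiniteMeasure P] (F : Set (Set X)) (hne : F.Nonempty)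
    (hF : ∀ f : ℕ → Set X, Monotone f → (∀ n, f n ∈ F) → (⋃ n, f n) ∈ F) :
    ∃ M ∈ F, ∀ N ∈ F, M ⊆ N → P N ≤ P M := by
  classical
  have hnext : ∀ (n : ℕ) (M : F), ∃ N : F, (M : Set X) ⊆ N ∧
      ∀ N' ∈ F, (M : Set X) ⊆ N' → P N' ≤ P N + (2 ^ n : ℝ≥0∞)⁻¹ := by
    intro n M
    by_contra hcon
    push Not at hcon
    -- iterate to get unbounded measure
    have hcon' : ∀ N : F, (M : Set X) ⊆ N → ∃ N' : F, (M : Set X) ⊆ N' ∧
        P N + (2 ^ n : ℝ≥0∞)⁻¹ < P N' := by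
      intro N hN
      obtain ⟨N', h1, h2, h3⟩ := hcon N hN
      exact ⟨⟨N', h1⟩, h2, h3⟩
    have hk : ∀ k : ℕ, ∃ N : F, (M : Set X) ⊆ N ∧ (k : ℝ≥0∞) * (2 ^ n : ℝ≥0∞)⁻¹ ≤ P N := by
      intro k
      induction k with
      | zero => exact ⟨M, subset_rfl, by simp⟩
      | succ k ih =>
        obtain ⟨N, h1, h2⟩ := ih
        obtain ⟨N', h3, h4⟩ := hcon' N h1
        refine ⟨N', h3, ?_⟩
        push_cast
        rw [add_mul, one_mul]
        exact (add_le_add_left h2 _).trans h4.le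
    have hfin : P univ ≠ ∞ := measure_ne_top P univ
    have hpos : (2 ^ n : ℝ≥0∞)⁻¹ ≠ 0 := ENNReal.inv_ne_zero.2 (by finiteness)
    obtain ⟨k, hk2⟩ := ENNReal.exists_nat_mul_gt hpos hfin
    obtain ⟨N, _, h5⟩ := hk k
    exact absurd ((hk2.trans_le h5).trans_le (measure_mono (subset_univ _))) (lt_irrefl _)
  choose nx hnx1 hnx2 using hnext
  obtain ⟨M0, hM0⟩ := hne
  let f : ℕ → F := fun n => Nat.rec ⟨M0, hM0⟩ (fun n M => nx n M) n
  have hf : ∀ n, f (n + 1) = nx n (f n) := fun n => rfl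
  have hmono : Monotone fun n => (f n).1 :=
    monotone_nat_of_le_succ fun n => hnx1 n (f n)
  refine ⟨⋃ n, (f n).1, hF _ hmono fun n => (f n).2, fun N hN hMN => ?_⟩
  have h1 : ∀ n, P N ≤ P (⋃ n, (f n).1) + (2 ^ n : ℝ≥0∞)⁻¹ := by
    intro n
    have h2 := hnx2 n (f n) N hN ((subset_iUnion (fun n => (f n).1) n).trans hMN)
    rw [← hf] at h2
    refine h2.trans ?_
    gcongr
    exact subset_iUnion (fun n => (f n).1) (n + 1)
  refine ENNReal.le_of_forall_pos_le_add fun ε hε _ => ?_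
  obtain ⟨n, hn⟩ := ENNReal.exists_inv_two_pow_lt (ENNReal.coe_ne_zero.2 hε.ne')
  refine (h1 n).trans (add_le_add_right ?_ _)
  rw [ENNReal.inv_pow]
  exact hn.le

theorem maharam (hm : m ≤ m0) (hP : RelAtomless m P) {D : Set X} (hD : MeasurableSet D)
    (ρ : @Measure X m) [@IsFiniteMeasure X m ρ]
    (hρ : ∀ C, MeasurableSet[m] C → ρ C ≤ P (D ∩ C)) :
    ∃ D', D' ⊆ D ∧ MeasurableSet D' ∧ ∀ C, MeasurableSet[m] C → P (D' ∩ C) = ρ C := by
  set F : Set (Set X) := {N | N ⊆ D ∧ MeasurableSet N ∧ ∀ C, MeasurableSet[m] C → P (N ∩ C) ≤ ρ C}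
    with hF
  obtain ⟨M, hM, hmax⟩ := exhaust (P := P) F
    ⟨∅, empty_subset _, MeasurableSet.empty, fun C _ => by simp⟩ (by
      intro f hf hfF
      refine ⟨iUnion_subset fun n => (hfF n).1, MeasurableSet.iUnion fun n => (hfF n).2.1, ?_⟩
      intro C hC
      rw [iUnion_inter]
      have hmono : Monotone fun n => f n ∩ C := fun i j hij => inter_subset_inter_left _ (hf hij)
      rw [hmono.measure_iUnion]
      exact iSup_le fun n => (hfF n).2.2 C hC)
  obtain ⟨hMD, hMm, hMρ⟩ := hM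
  refine ⟨M, hMD, hMm, fun C₀ hC₀ => ?_⟩
  by_contra hne
  have hlt : P (M ∩ C₀) < ρ C₀ := lt_of_le_of_ne (hMρ C₀ hC₀) hne
  obtain ⟨n, hn⟩ : ∃ n : ℕ, P (M ∩ C₀) + (2 ^ n : ℝ≥0∞)⁻¹ * P C₀ < ρ C₀ := by
    have h1 : ρ C₀ - P (M ∩ C₀) ≠ 0 := (tsub_pos_iff_lt.2 hlt).ne'
    have hfin : P C₀ ≠ ∞ := measure_ne_top P _
    obtain ⟨n, hn⟩ := ENNReal.exists_inv_two_pow_lt (a := (ρ C₀ - P (M ∩ C₀)) / (P C₀ + 1))
      (by
        apply ENNReal.div_ne_zero.2
        exact ⟨h1, by finiteness⟩)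
    refine ⟨n, ?_⟩
    rw [← lt_tsub_iff_left]
    have h2 : P C₀ + 1 ≠ 0 := by simp
    have h3 : P C₀ + 1 ≠ ∞ := by finiteness
    rw [ENNReal.lt_div_iff_mul_lt (Or.inl h2) (Or.inl h3)] at hn
    refine lt_of_le_of_lt ?_ hn
    rw [ENNReal.inv_pow]
    gcongr
    exact le_self_add
  -- the measure to compare with
  set c : ℝ≥0∞ := (2 ^ n : ℝ≥0∞)⁻¹ with hc
  have hctop : c ≠ ∞ := by
    rw [hc]
    exact ENNReal.inv_ne_top.2 (by positivity)
  haveI : IsFiniteMeasure ((P.restrict M).trim hm) := isFiniteMeasure_trim hm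
  haveI : IsFiniteMeasure (P.trim hm) := isFiniteMeasure_trim hm
  haveI : @IsFiniteMeasure X m (c • P.trim hm) := by
    refine @IsFiniteMeasure.mk X m _ ?_
    rw [Measure.smul_apply, smul_eq_mul]
    exact ENNReal.mul_lt_top (lt_top_iff_ne_top.2 hctop) (measure_lt_top _ _)
  set α : @Measure X m := (P.restrict M).trim hm + c • P.trim hm with hα
  haveI : @IsFiniteMeasure X m α := by
    rw [hα]
    infer_instance
  have hαC : ∀ C, MeasurableSet[m] C → α C = P (M ∩ C) + c * P C := by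
    intro C hC
    rw [hα, Measure.add_apply, Measure.smul_apply, smul_eq_mul, trim_measurableSet_eq hm hC,
      trim_measurableSet_eq hm hC, Measure.restrict_apply (hm C hC), inter_comm]
  obtain ⟨s, hs, h1, h2⟩ := @hahn_decomposition X m ρ α _ _
  have hs0 := hm s hs
  set C₁ := C₀ ∩ s with hC₁
  have hC₁m : MeasurableSet[m] C₁ := hC₀.inter hs
  have hlt1 : α C₁ < ρ C₁ := by
    have e1 : ρ C₀ = ρ C₁ + ρ (C₀ \ s) := (measure_inter_add_diff C₀ hs).symm
    have e2 : α C₀ = α C₁ + α (C₀ \ s) := (measure_inter_add_diff C₀ hs).symm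
    have e3 : ρ (C₀ \ s) ≤ α (C₀ \ s) := h2 _ (hC₀.diff hs) (fun x hx => hx.2)
    have e4 : α C₀ < ρ C₀ := by
      rw [hαC C₀ hC₀]
      exact hn
    rw [e1, e2] at e4
    have e5 : α C₁ + α (C₀ \ s) < ρ C₁ + α (C₀ \ s) := e4.trans_le (add_le_add_right e3 _)
    exact lt_of_add_lt_add_right e5
  have hpos : P ((D \ M) ∩ C₁) ≠ 0 := by
    intro h0
    have e1 : P (D ∩ C₁) ≤ P (M ∩ C₁) := by
      calc P (D ∩ C₁) ≤ P ((M ∩ C₁) ∪ ((D \ M) ∩ C₁)) := by
            apply measure_mono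
            rintro x ⟨hx, hx'⟩
            by_cases hxM : x ∈ M
            · exact Or.inl ⟨hxM, hx'⟩
            · exact Or.inr ⟨⟨hx, hxM⟩, hx'⟩
        _ ≤ P (M ∩ C₁) + P ((D \ M) ∩ C₁) := measure_union_le _ _
        _ = P (M ∩ C₁) := by rw [h0, add_zero]
    have e2 : α C₁ < P (M ∩ C₁) := hlt1.trans_le ((hρ C₁ hC₁m).trans e1)
    rw [hαC C₁ hC₁m] at e2
    exact absurd e2 (not_lt.2 le_self_add)
  obtain ⟨D', g1, g2, g3, g4⟩ := halve_iter hm hP n
    ((hD.diff hMm).inter (hm _ hC₁m)) hpos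
  have hdisj : Disjoint M D' := by
    rw [Set.disjoint_left]
    intro x hx hx'
    exact (g1 hx').1.2 hx
  have hN : M ∪ D' ∈ F := by
    refine ⟨union_subset hMD (fun x hx => (g1 hx).1.1), hMm.union g2, fun C hC => ?_⟩
    have hC0 := hm C hC
    have f1 : P (D' ∩ C) ≤ c * P (C ∩ C₁) := by
      have f2 := g4 (C ∩ C₁) (hC.inter hC₁m)
      have f3 : D' ∩ (C ∩ C₁) = D' ∩ C := by
        ext x
        constructor
        · rintro ⟨hx, hx', _⟩
          exact ⟨hx, hx'⟩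
        · rintro ⟨hx, hx'⟩
          exact ⟨hx, hx', (g1 hx).2⟩
      rw [f3] at f2
      have f4 : P (D \ M ∩ C₁ ∩ (C ∩ C₁)) ≤ P (C ∩ C₁) := measure_mono inter_subset_right
      rw [hc]
      rw [mul_comm, ← div_eq_mul_inv, ENNReal.le_div_iff_mul_le (Or.inl (by positivity))
        (Or.inl (by finiteness)), mul_comm]
      exact f2.trans f4
    have f5 : P (M ∩ C) = P (M ∩ (C ∩ C₁)) + P (M ∩ (C \ C₁)) := by
      rw [← measure_inter_add_diff (M ∩ C) (hm _ hC₁m), inter_assoc, inter_diff_assoc]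
    have f6 : α (C ∩ C₁) ≤ ρ (C ∩ C₁) :=
      h1 _ (hC.inter hC₁m) (fun x hx => hx.2.2)
    have f7 : P (M ∩ (C \ C₁)) ≤ ρ (C \ C₁) := hMρ _ (hC.diff hC₁m)
    have f8 : ρ C = ρ (C ∩ C₁) + ρ (C \ C₁) := (measure_inter_add_diff C hC₁m).symm
    calc P ((M ∪ D') ∩ C) ≤ P (M ∩ C) + P (D' ∩ C) := by
          rw [union_inter_distrib_right]
          exact measure_union_le _ _
      _ ≤ P (M ∩ (C ∩ C₁)) + P (M ∩ (C \ C₁)) + c * P (C ∩ C₁) := by
          rw [f5]
          gcongr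
      _ = (P (M ∩ (C ∩ C₁)) + c * P (C ∩ C₁)) + P (M ∩ (C \ C₁)) := by ring
      _ = α (C ∩ C₁) + P (M ∩ (C \ C₁)) := by rw [hαC _ (hC.inter hC₁m)]
      _ ≤ ρ (C ∩ C₁) + ρ (C \ C₁) := by gcongr
      _ = ρ C := f8.symm
  have hle := hmax _ hN subset_union_left
  rw [measure_union hdisj g2] at hle
  have hMfin : P M ≠ ∞ := measure_ne_top P M
  have : P D' ≤ 0 := by
    have h9 : P M + P D' ≤ P M + 0 := by rwa [add_zero]
    exact (ENNReal.add_le_add_iff_left hMfin).1 h9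
  exact g3 (nonpos_iff_eq_zero.1 this)

theorem exists_step (hm : m ≤ m0) (hP : RelAtomless m P) {b : Set X} (hb : MeasurableSet b) :
    ∃ a, Step m P b a := by
  haveI : IsFiniteMeasure ((P.restrict b).trim hm) := isFiniteMeasure_trim hm
  haveI : IsFiniteMeasure ((P.restrict bᶜ).trim hm) := isFiniteMeasure_trim hm
  haveI : IsFiniteMeasure (P.trim hm) := isFiniteMeasure_trim hm
  obtain ⟨h, hh, h1, h2⟩ := @hahn_decomposition X m ((P.restrict b).trim hm)
    ((P.restrict bᶜ).trim hm) _ _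
  have hh0 := hm h hh
  have a1 : ∀ t, MeasurableSet[m] t → t ⊆ h → P (t ∩ bᶜ) ≤ P (t ∩ b) := by
    intro t ht hts
    have := h1 t ht hts
    rwa [trim_measurableSet_eq hm ht, trim_measurableSet_eq hm ht, Measure.restrict_apply (hm t ht),
      Measure.restrict_apply (hm t ht)] at this
  have a2 : ∀ t, MeasurableSet[m] t → t ⊆ hᶜ → P (t ∩ b) ≤ P (t ∩ bᶜ) := by
    intro t ht hts
    have := h2 t ht hts
    rwa [trim_measurableSet_eq hm ht, trim_measurableSet_eq hm ht, Measure.restrict_apply (hm t ht),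
      Measure.restrict_apply (hm t ht)] at this
  have hsplit : ∀ t, P t = P (t ∩ b) + P (t ∩ bᶜ) := fun t => (measure_inter_add_diff t hb).symm
  have htwo : (2⁻¹ : ℝ≥0∞) ≠ ∞ := by norm_num
  have hmeas : ∀ s, MeasurableSet[m] s → ∀ C, MeasurableSet[m] C →
      ((2⁻¹ : ℝ≥0∞) • (P.trim hm).restrict s) C = 2⁻¹ * P (C ∩ s) := by
    intro s hs C hC
    rw [Measure.smul_apply, smul_eq_mul, Measure.restrict_apply hC,
      trim_measurableSet_eq hm (hC.inter hs)]
  have hfin : ∀ s, @IsFiniteMeasure X m ((2⁻¹ : ℝ≥0∞) • (P.trim hm).restrict s) := by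
    intro s
    refine @IsFiniteMeasure.mk X m _ ?_
    rw [Measure.smul_apply, smul_eq_mul]
    exact ENNReal.mul_lt_top (lt_top_iff_ne_top.2 htwo) (measure_lt_top _ _)
  have hhalf : ∀ x y : ℝ≥0∞, x ≤ y → 2⁻¹ * (y + x) ≤ y := by
    intro x y hxy
    calc 2⁻¹ * (y + x) ≤ 2⁻¹ * (y + y) := by gcongr
      _ = y := by rw [← two_mul, ← mul_assoc, ENNReal.inv_mul_cancel (by norm_num) (by norm_num),
        one_mul]
  haveI := hfin h
  haveI := hfin hᶜ
  obtain ⟨p, p1, p2, p3⟩ := maharam hm hP (hb.inter hh0)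
    ((2⁻¹ : ℝ≥0∞) • (P.trim hm).restrict h) (by
      intro C hC
      rw [hmeas h hh C hC, hsplit (C ∩ h)]
      have e1 : b ∩ h ∩ C = C ∩ h ∩ b := by
        ext x
        simp only [mem_inter_iff]
        tauto
      rw [e1]
      exact hhalf _ _ (a1 _ (hC.inter hh) inter_subset_right))
  obtain ⟨q, q1, q2, q3⟩ := maharam hm hP (hb.compl.inter hh0.compl)
    ((2⁻¹ : ℝ≥0∞) • (P.trim hm).restrict hᶜ) (by
      intro C hC
      rw [hmeas hᶜ hh.compl C hC, hsplit (C ∩ hᶜ), add_comm]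
      have e1 : bᶜ ∩ hᶜ ∩ C = C ∩ hᶜ ∩ bᶜ := by
        ext x
        simp only [mem_inter_iff]
        tauto
      rw [e1]
      exact hhalf _ _ (a2 _ (hC.inter hh.compl) inter_subset_right))
  refine ⟨p ∪ (hᶜ \ q), p2.union (hh0.compl.diff q2), ?_, h, hh, ?_, ?_⟩
  · intro C hC
    have hC0 := hm C hC
    have hfinC : ∀ t : Set X, P t ≠ ∞ := fun t => measure_ne_top P t
    have e1 : P ((p ∪ (hᶜ \ q)) ∩ C) = P (p ∩ C) + P ((C ∩ hᶜ) \ q) := by
      rw [← measure_union]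
      · congr 1
        ext x
        simp only [mem_inter_iff, mem_union, mem_diff, mem_compl_iff]
        tauto
      · rw [Set.disjoint_left]
        rintro x ⟨hx, _⟩ ⟨⟨_, hx'⟩, _⟩
        exact hx' (p1 hx).2
      · exact (hC0.inter hh0.compl).diff q2
    have e2 : P (C ∩ hᶜ) = P (q ∩ C) + P ((C ∩ hᶜ) \ q) := by
      rw [← measure_inter_add_diff (C ∩ hᶜ) q2]
      congr 2
      ext x
      simp only [mem_inter_iff, mem_compl_iff]
      constructor
      · rintro ⟨⟨h1, _⟩, h3⟩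
        exact ⟨h3, h1⟩
      · rintro ⟨h1, h2⟩
        exact ⟨⟨h2, (q1 h1).2⟩, h1⟩
    have e3 := p3 C hC
    have e4 := q3 C hC
    rw [hmeas h hh C hC] at e3
    rw [hmeas hᶜ hh.compl C hC] at e4
    have e5 : P C = P (C ∩ h) + P (C ∩ hᶜ) := (measure_inter_add_diff C hh0).symm
    have e6 : (2 : ℝ≥0∞) * P (q ∩ C) = P (C ∩ hᶜ) := by
      rw [e4, ← mul_assoc, ENNReal.mul_inv_cancel (by norm_num) (by norm_num), one_mul]
    have e7 : (2 : ℝ≥0∞) * P (p ∩ C) = P (C ∩ h) := by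
      rw [e3, ← mul_assoc, ENNReal.mul_inv_cancel (by norm_num) (by norm_num), one_mul]
    have e8 : P ((C ∩ hᶜ) \ q) = P (q ∩ C) := by
      have : P (q ∩ C) + P ((C ∩ hᶜ) \ q) = P (q ∩ C) + P (q ∩ C) := by
        rw [← e2, ← e6, two_mul]
      exact (ENNReal.add_right_inj (hfinC _)).1 this
    rw [e1, e8, mul_add, e6, e7, ← e5]
  · rintro x ⟨hx | hx, hxh⟩
    · exact (p1 hx).1
    · exact absurd hxh hx.1
  · rintro x ⟨hxb, hxh⟩
    right
    exact ⟨hxh, fun hxq => (q1 hxq).1 hxb⟩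

end

end Pool.Agent.Q196.MB
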