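import Pool.Agent.Q196.MB.Maharam1

/-!
# The bits

`P` is a finite measure, `κ` an infinite cardinal, such that `P` is relatively atomless over every
σ-algebra generated by fewer than `κ` sets, and the σ-algebra is generated modulo null sets by `κ`
sets.  A transfinite recursion gives a family of bits.
-/

namespace Pool.Agent.Q196.MB

open MeasureTheory Set Cardinal
open scoped ENNReal NNReal

universe u

/-- The family `S` generates the σ-algebra modulo `P`-null sets. -/
def Generates {X : Type u} {m0 : MeasurableSpace X} (P : Measure X) (S : Set (Set X)) : Prop :=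
  ∀ E, MeasurableSet E → ∃ C, MeasurableSet[MeasurableSpace.generateFrom S] C ∧ E =ᵐ[P] C

section

variable {X : Type u} {m0 : MeasurableSpace X} (P : Measure X)
  {I : Type u} [LinearOrder I] [WellFoundedLT I]

open Classical in
/-- The bits, by transfinite recursion; `b` is the family of the targets. -/
noncomputable def bit (b : I → Set X) : I → Set X :=
  WellFounded.fix (wellFounded_lt (α := I)) fun ξ prev =>
    if h : ∃ a, Step (MeasurableSpace.generateFrom {s | ∃ (η : I) (hη : η < ξ), prev η hη = s}) P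
        (b ξ) a then h.choose else ∅

/-- The σ-algebra of the bits before `ξ`. -/
def before (b : I → Set X) (ξ : I) : MeasurableSpace X :=
  MeasurableSpace.generateFrom {s | ∃ (η : I) (_ : η < ξ), bit P b η = s}

theorem bit_step [IsFiniteMeasure P] (b : I → Set X) (hb : ∀ ξ, MeasurableSet (b ξ))
    (hP : ∀ (S : Set (Set X)), (∀ s ∈ S, MeasurableSet s) → #S < #I →
      RelAtomless (MeasurableSpace.generateFrom S) P)
    (hI : ∀ ξ : I, #(Iio ξ) < #I) (ξ : I) : Step (before P b ξ) P (b ξ) (bit P b ξ) := by
  classical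
  induction ξ using WellFoundedLT.induction with
  | ind ξ ih =>
    have hm : ∀ s ∈ {s | ∃ (η : I) (_ : η < ξ), bit P b η = s}, MeasurableSet s := by
      rintro s ⟨η, hη, rfl⟩
      exact (ih η hη).1
    have hle : before P b ξ ≤ m0 := MeasurableSpace.generateFrom_le hm
    have hcard : #({s | ∃ (η : I) (_ : η < ξ), bit P b η = s} : Set (Set X)) < #I := by
      have : ({s | ∃ (η : I) (_ : η < ξ), bit P b η = s} : Set (Set X)) = bit P b '' Iio ξ := by
        ext s
        simp
      rw [this]
      exact mk_image_le.trans_lt (hI ξ)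
    have hex : ∃ a, Step (before P b ξ) P (b ξ) a :=
      exists_step hle (hP _ hm hcard) (hb ξ)
    have heq : bit P b ξ = hex.choose := by
      have h1 : bit P b ξ = if h : ∃ a, Step (before P b ξ) P (b ξ) a then h.choose else ∅ := by
        rw [bit, WellFounded.fix_eq]
        rfl
      rw [h1, dif_pos hex]
    rw [heq]
    exact hex.choose_spec

theorem before_mono (b : I → Set X) {ξ η : I} (h : ξ ≤ η) : before P b ξ ≤ before P b η := by
  apply MeasurableSpace.generateFrom_mono
  rintro s ⟨ζ, hζ, rfl⟩
  exact ⟨ζ, hζ.trans_le h, rfl⟩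

theorem bit_mem_before (b : I → Set X) {ξ η : I} (h : ξ < η) :
    MeasurableSet[before P b η] (bit P b ξ) :=
  MeasurableSpace.measurableSet_generateFrom ⟨ξ, h, rfl⟩

/-- The σ-algebra of all bits. -/
def allBits (b : I → Set X) : MeasurableSpace X :=
  MeasurableSpace.generateFrom (range (bit P b))

theorem before_le_all (b : I → Set X) (ξ : I) : before P b ξ ≤ allBits P b := by
  apply MeasurableSpace.generateFrom_mono
  rintro s ⟨ζ, _, rfl⟩
  exact ⟨ζ, rfl⟩

/-- A target visited along an increasing sequence of stages is in the σ-algebra of the bits. -/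
theorem target_mem [IsFiniteMeasure P] (b : I → Set X)
    (hstep : ∀ ξ, Step (before P b ξ) P (b ξ) (bit P b ξ))
    (hb : ∀ ξ, MeasurableSet (b ξ)) (s : Set X) (f : ℕ → I) (hf : StrictMono f)
    (hs : ∀ n, b (f n) = s) : ∃ C, MeasurableSet[allBits P b] C ∧ s =ᵐ[P] C := by
  have hle : ∀ ξ, before P b ξ ≤ m0 := by
    intro ξ
    apply MeasurableSpace.generateFrom_le
    rintro t ⟨η, _, rfl⟩
    exact (hstep η).1
  have key : ∀ n, ∃ C V : Set X, MeasurableSet[before P b (f n)] C ∧
      MeasurableSet[before P b (f n)] V ∧ s ⊆ C ∪ V ∧ C ⊆ s ∪ V ∧ 2 ^ n * P V ≤ P univ := by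
    intro n
    induction n with
    | zero =>
      exact ⟨∅, univ, @MeasurableSet.empty _ (before P b (f 0)),
        @MeasurableSet.univ _ (before P b (f 0)), by simp, by simp, by simp⟩
    | succ n ih =>
      obtain ⟨C, V, hC, hV, h1, h2, h3⟩ := ih
      obtain ⟨g1, g2, h, g3, g4, g5⟩ := hstep (f n)
      rw [hs] at g4 g5
      set a := bit P b (f n) with ha
      have hlt : f n < f (n + 1) := hf (Nat.lt_succ_self n)
      have ham : MeasurableSet[before P b (f (n + 1))] a := bit_mem_before P b hlt
      have hmono := before_mono P b hlt.le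
      have hC' := hmono C hC
      have hV' := hmono V hV
      have hh' := hmono h g3
      have m1 : MeasurableSet[before P b (f (n + 1))] (V ∩ ((h \ a) ∪ (a \ h))) :=
        hV'.inter ((hh'.diff ham).union (ham.diff hh'))
      have m2 : MeasurableSet[before P b (f (n + 1))] ((C \ V) ∪ (V ∩ h ∩ a)) :=
        (hC'.diff hV').union ((hV'.inter hh').inter ham)
      refine ⟨_, _, m2, m1, ?_, ?_, ?_⟩
      · intro x hx
        by_cases hxV : x ∈ V
        · by_cases hxh : x ∈ h
          · by_cases hxa : x ∈ a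
            · exact Or.inl (Or.inr ⟨⟨hxV, hxh⟩, hxa⟩)
            · exact Or.inr ⟨hxV, Or.inl ⟨hxh, hxa⟩⟩
          · exact Or.inr ⟨hxV, Or.inr ⟨g5 ⟨hx, hxh⟩, hxh⟩⟩
        · rcases h1 hx with h | h
          · exact Or.inl (Or.inl ⟨h, hxV⟩)
          · exact absurd h hxV
      · rintro x (⟨hxC, hxV⟩ | ⟨⟨_, hxh⟩, hxa⟩)
        · rcases h2 hxC with h | h
          · exact Or.inl h
          · exact absurd h hxV
        · exact Or.inl (g4 ⟨hxa, hxh⟩)
      · have hfin : ∀ t : Set X, P t ≠ ∞ := fun t => measure_ne_top P t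
        have hV0 := hle _ V hV
        have hh0 := hle _ h g3
        have e1 := g2 (V ∩ h) (hV.inter g3)
        have e2 := g2 (V \ h) (hV.diff g3)
        have e3 : P (V ∩ ((h \ a) ∪ (a \ h))) = P ((V ∩ h) \ a) + P (a ∩ (V \ h)) := by
          rw [← measure_union]
          · congr 1
            ext x
            simp only [mem_inter_iff, mem_union, mem_diff]
            tauto
          · rw [Set.disjoint_left]
            rintro x ⟨⟨_, hx⟩, _⟩ ⟨_, _, hx'⟩
            exact hx' hx
          · exact g1.inter (hV0.diff hh0)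
        have e4 : P (V ∩ h) = P (a ∩ (V ∩ h)) + P ((V ∩ h) \ a) := by
          rw [inter_comm a]
          exact (measure_inter_add_diff (V ∩ h) g1).symm
        have e5 : P ((V ∩ h) \ a) = P (a ∩ (V ∩ h)) := by
          have : P (a ∩ (V ∩ h)) + P ((V ∩ h) \ a) = P (a ∩ (V ∩ h)) + P (a ∩ (V ∩ h)) := by
            rw [← e4, ← e1, two_mul]
          exact (ENNReal.add_right_inj (hfin _)).1 this
        have e6 : P V = P (V ∩ h) + P (V \ h) := (measure_inter_add_diff V hh0).symm
        have e7 : 2 * P (V ∩ ((h \ a) ∪ (a \ h))) = P V := by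
          rw [e3, e5, mul_add, e1, e2, ← e6]
        rw [pow_succ, mul_assoc, e7]
        exact h3
  choose C V hC hV h1 h2 h3 using key
  refine ⟨⋂ n, (C n ∪ V n), @MeasurableSet.iInter _ _ (allBits P b) _ _ fun n =>
    (before_le_all P b _ _ (hC n)).union (before_le_all P b _ _ (hV n)), ?_⟩
  have hsub : s ⊆ ⋂ n, (C n ∪ V n) := subset_iInter h1
  have hnull : P ((⋂ n, (C n ∪ V n)) \ s) = 0 := by
    have hn : ∀ n : ℕ, P ((⋂ n, (C n ∪ V n)) \ s) ≤ (2 ^ n)⁻¹ * P univ := by
      intro n
      have hsub2 : (⋂ n, (C n ∪ V n)) \ s ⊆ V n := by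
        rintro x ⟨hx, hxs⟩
        rcases mem_iInter.1 hx n with h | h
        · rcases h2 n h with h' | h'
          · exact absurd h' hxs
          · exact h'
        · exact h
      refine (measure_mono hsub2).trans ?_
      rw [mul_comm, ← div_eq_mul_inv, ENNReal.le_div_iff_mul_le (Or.inl (by positivity))
        (Or.inl (by finiteness)), mul_comm]
      exact h3 n
    have hlim : Filter.Tendsto (fun n : ℕ => ((2 : ℝ≥0∞) ^ n)⁻¹ * P univ) Filter.atTop
        (nhds (0 * P univ)) := by
      refine ENNReal.Tendsto.mul_const ?_ (Or.inr (measure_ne_top P univ))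
      have := ENNReal.tendsto_pow_atTop_nhds_zero_of_lt_one (r := 2⁻¹) (by norm_num)
      refine this.congr fun n => ?_
      rw [ENNReal.inv_pow]
    rw [zero_mul] at hlim
    exact nonpos_iff_eq_zero.1 (ge_of_tendsto' hlim hn)
  have h4 : ∀ᵐ x ∂P, x ∉ (⋂ n, (C n ∪ V n)) \ s := measure_eq_zero_iff_ae_notMem.1 hnull
  filter_upwards [h4] with x hx
  refine propext ⟨fun h => hsub h, fun h => ?_⟩
  by_contra hxs
  exact hx ⟨h, hxs⟩

end

/-- **The family of bits.** -/
theorem exists_bits {X : Type u} {m0 : MeasurableSpace X} (P : Measure X) [IsFiniteMeasure P]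
    (S : Set (Set X)) (hS : ∀ s ∈ S, MeasurableSet s) (hinf : ℵ₀ ≤ #S) (hgen : Generates P S)
    (hP : ∀ (S' : Set (Set X)), (∀ s ∈ S', MeasurableSet s) → #S' < #S →
      RelAtomless (MeasurableSpace.generateFrom S') P) :
    ∃ (I : Type u) (_ : LinearOrder I) (_ : Infinite I) (a : I → Set X),
      (∀ ξ, MeasurableSet (a ξ)) ∧
      (∀ ξ C, MeasurableSet[MeasurableSpace.generateFrom (a '' Iio ξ)] C →
        2 * P (a ξ ∩ C) = P C) ∧ Generates P (range a) := by
  classical
  let I := (#S).ord.ToType
  have hI : #I = #S := by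
    change #((#S).ord.ToType) = #S
    rw [mk_toType, card_ord]
  have hIio : ∀ ξ : I, #(Iio ξ) < #I := by
    intro ξ
    exact mk_Iio_lt ξ (by rw [hI]; exact (Ordinal.type_toType _).symm)
  haveI : Infinite I := by
    rw [infinite_iff, hI]
    exact hinf
  haveI : Infinite S := by
    rw [infinite_iff]
    exact hinf
  have hcard : #I = #(S × ℕ) := by
    rw [hI, mk_prod, mk_nat, lift_aleph0, lift_uzero, mul_aleph0_eq hinf]
  obtain ⟨e⟩ := Cardinal.eq.1 hcard
  let b : I → Set X := fun ξ => ((e ξ).1 : Set X)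
  have hb : ∀ ξ, MeasurableSet (b ξ) := fun ξ => hS _ (e ξ).1.2
  have hstep := bit_step P b hb (fun S' h1 h2 => hP S' h1 (by rwa [hI] at h2)) hIio
  refine ⟨I, inferInstance, inferInstance, bit P b, fun ξ => (hstep ξ).1, ?_, ?_⟩
  · intro ξ C hC
    refine (hstep ξ).2.1 C ?_
    have : bit P b '' Iio ξ = {s | ∃ (η : I) (_ : η < ξ), bit P b η = s} := by
      ext s
      simp
    rw [this] at hC
    exact hC
  · have htgt : ∀ s ∈ S, ∃ C, MeasurableSet[allBits P b] C ∧ s =ᵐ[P] C := by
      intro s hs
      let f0 : ℕ → I := fun n => e.symm (⟨s, hs⟩, n)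
      have hf0 : Function.Injective f0 := by
        intro m n h
        have := e.symm.injective h
        simpa using this
      obtain ⟨g, hg | hg⟩ := exists_increasing_or_nonincreasing_subseq (α := I) (· < ·) f0
      · refine target_mem P b hstep hb s (fun n => f0 (g n)) (fun m n h => hg m n h) fun n => ?_
        change ((e (e.symm (⟨s, hs⟩, g n))).1 : Set X) = s
        rw [Equiv.apply_symm_apply]
      · exfalso
        have hanti : ∀ m n, m < n → f0 (g n) < f0 (g m) := by
          intro m n h
          rcases lt_trichotomy (f0 (g m)) (f0 (g n)) with h' | h' | h'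
          · exact absurd h' (hg m n h)
          · exact absurd (g.injective (hf0 h')) h.ne
          · exact h'
        exact (RelEmbedding.natGT (fun n => f0 (g n)) (fun n => hanti n (n + 1)
          (Nat.lt_succ_self n))).not_wellFounded (wellFounded_lt (α := I))
    have hle : MeasurableSpace.generateFrom S ≤
        @eventuallyMeasurableSpace X (allBits P b) (ae P) _ := by
      apply MeasurableSpace.generateFrom_le
      intro s hs
      obtain ⟨C, h1, h2⟩ := htgt s hs
      exact ⟨C, h1, h2⟩
    intro E hE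
    obtain ⟨C, hC, hEC⟩ := hgen E hE
    obtain ⟨C', hC', hCC'⟩ := hle C hC
    exact ⟨C', hC', hEC.trans hCC'⟩

end Pool.Agent.Q196.MB
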