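import Pool.Agent.Q196.MB.Bits

/-!
# The algebra of a measure space is rich in rank one projections
-/

namespace Pool.Agent.Q196.MB

open MeasureTheory Set Cardinal
open scoped ENNReal NNReal

universe u

variable {X : Type u} {m0 : MeasurableSpace X} {μ : Measure X}

/-- Every set of positive measure contains a set of positive measure whose density is minimal among
all its subsets of positive measure. -/
theorem exists_minimal {A : Set X} (hA : MeasurableSet A) (hA0 : μ A ≠ 0) :
    ∃ B, B ⊆ A ∧ MeasurableSet B ∧ μ B ≠ 0 ∧ ∃ S : Set (Set X), (∀ s ∈ S, MeasurableSet s) ∧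
      Generates (μ.restrict B) S ∧
      ∀ B', B' ⊆ B → MeasurableSet B' → μ B' ≠ 0 → ∀ S' : Set (Set X),
        (∀ s ∈ S', MeasurableSet s) → Generates (μ.restrict B') S' → #S ≤ #S' := by
  let T : Set Cardinal.{u} := {c | ∃ B, B ⊆ A ∧ MeasurableSet B ∧ μ B ≠ 0 ∧ ∃ S : Set (Set X),
    (∀ s ∈ S, MeasurableSet s) ∧ Generates (μ.restrict B) S ∧ #S = c}
  have hT : T.Nonempty := by
    refine ⟨_, A, subset_rfl, hA, hA0, {s | MeasurableSet s}, fun s hs => hs, ?_, rfl⟩
    intro E hE
    exact ⟨E, MeasurableSpace.measurableSet_generateFrom hE, Filter.EventuallyEq.rfl⟩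
  obtain ⟨B, h1, h2, h3, S, h4, h5, h6⟩ := csInf_mem hT
  refine ⟨B, h1, h2, h3, S, h4, h5, fun B' g1 g2 g3 S' g4 g5 => ?_⟩
  rw [h6]
  exact csInf_le' ⟨B', g1.trans h1, g2, g3, S', g4, g5, rfl⟩

theorem relAtomless_of_minimal {B : Set X} (hB : MeasurableSet B) {S : Set (Set X)}
    (hmin : ∀ B', B' ⊆ B → MeasurableSet B' → μ B' ≠ 0 → ∀ S' : Set (Set X),
        (∀ s ∈ S', MeasurableSet s) → Generates (μ.restrict B') S' → #S ≤ #S')
    (S' : Set (Set X)) (hS' : ∀ s ∈ S', MeasurableSet s) (hlt : #S' < #S) :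
    RelAtomless (MeasurableSpace.generateFrom S') (μ.restrict B) := by
  intro D hD hD0
  by_contra hcon
  push Not at hcon
  rw [Measure.restrict_apply hD] at hD0
  have := hmin (D ∩ B) inter_subset_right (hD.inter hB) hD0 S' hS' (by
    intro E hE
    obtain ⟨C, hC, h⟩ := hcon E hE
    rw [Measure.restrict_restrict hD] at h
    exact ⟨C, hC, h⟩)
  exact absurd this (not_le.2 hlt)

/-- A set of finite minimal density is an atom. -/
theorem atom_of_finite {B : Set X} (hB : MeasurableSet B) (hB0 : μ B ≠ 0) {S : Set (Set X)}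
    (hS : ∀ s ∈ S, MeasurableSet s) (hgen : Generates (μ.restrict B) S)
    (hmin : ∀ B', B' ⊆ B → MeasurableSet B' → μ B' ≠ 0 → ∀ S' : Set (Set X),
        (∀ s ∈ S', MeasurableSet s) → Generates (μ.restrict B') S' → #S ≤ #S')
    (hfin : #S < ℵ₀) : ∀ C, MeasurableSet C → μ (C ∩ B) = 0 ∨ μ (B \ C) = 0 := by
  have hSf : S.Finite := lt_aleph0_iff_set_finite.1 hfin
  have hempty : S = ∅ := by
    by_contra hne
    obtain ⟨F, hF⟩ := nonempty_iff_ne_empty.2 hne
    -- a subset of positive measure on which `F` is trivial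
    obtain ⟨D, hDB, hDm, hD0, U, hU⟩ : ∃ D, D ⊆ B ∧ MeasurableSet D ∧ μ D ≠ 0 ∧ ∃ U : Set X,
        (U = Set.univ ∨ U = ∅) ∧ F ∩ D = U ∩ D := by
      by_cases h : μ (B ∩ F) = 0
      · refine ⟨B \ F, diff_subset, hB.diff (hS F hF), ?_, ∅, Or.inr rfl, ?_⟩
        · intro h'
          apply hB0
          rw [← measure_inter_add_diff B (hS F hF), h, h', add_zero]
        · ext x
          simp only [mem_inter_iff, mem_diff, mem_empty_iff_false, false_and, iff_false]
          tauto
      · refine ⟨B ∩ F, inter_subset_left, hB.inter (hS F hF), h, Set.univ, Or.inl rfl, ?_⟩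
        ext x
        simp only [mem_inter_iff, mem_univ, true_and]
        tauto
    have hle : MeasurableSpace.generateFrom S ≤
        @eventuallyMeasurableSpace X (MeasurableSpace.generateFrom (S \ {F}))
          (ae (μ.restrict D)) _ := by
      apply MeasurableSpace.generateFrom_le
      intro s hs
      by_cases hsF : s = F
      · refine ⟨U, ?_, ?_⟩
        · rcases hU.1 with h | h
          · rw [h]
            exact @MeasurableSet.univ _ (MeasurableSpace.generateFrom (S \ {F}))
          · rw [h]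
            exact @MeasurableSet.empty _ (MeasurableSpace.generateFrom (S \ {F}))
        · change s =ᵐ[μ.restrict D] U
          have h1 : ∀ᵐ x ∂(μ.restrict D), x ∈ D := ae_restrict_mem hDm
          filter_upwards [h1] with x hx
          refine propext ?_
          rw [hsF]
          have h2 := hU.2
          constructor
          · intro h
            have : x ∈ F ∩ D := ⟨h, hx⟩
            rw [h2] at this
            exact this.1
          · intro h
            have : x ∈ U ∩ D := ⟨h, hx⟩
            rw [← h2] at this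
            exact this.1
      · exact ⟨s, MeasurableSpace.measurableSet_generateFrom ⟨hs, hsF⟩, Filter.EventuallyEq.rfl⟩
    have hgen' : Generates (μ.restrict D) (S \ {F}) := by
      intro E hE
      obtain ⟨C, hC, hEC⟩ := hgen E hE
      obtain ⟨C', hC', hCC'⟩ := hle C hC
      refine ⟨C', hC', ?_⟩
      have h1 : E =ᵐ[μ.restrict D] C :=
        ae_mono (Measure.restrict_mono hDB le_rfl) hEC
      exact h1.trans hCC'
    have hle2 := hmin D hDB hDm hD0 (S \ {F}) (fun s hs => hS s hs.1) hgen'
    have hss : S \ {F} ⊂ S := ⟨diff_subset, fun h => (h hF).2 rfl⟩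
    have h3 : (S \ {F}).ncard < S.ncard := ncard_lt_ncard hss hSf
    have h4 : (S \ {F}).Finite := hSf.subset diff_subset
    rw [← Set.cast_ncard hSf, ← Set.cast_ncard h4, Nat.cast_le] at hle2
    omega
  intro C hC
  obtain ⟨C', hC', h⟩ := hgen C hC
  rw [hempty, MeasurableSpace.generateFrom_empty, MeasurableSpace.measurableSet_bot_iff] at hC'
  have h1 := (ae_restrict_iff' hB).1 h
  rcases hC' with rfl | rfl
  · left
    rw [measure_eq_zero_iff_ae_notMem]
    filter_upwards [h1] with x hx hx'
    have h2 : (x ∈ C) = (x ∈ (∅ : Set X)) := hx hx'.2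
    have h3 := hx'.1
    rw [h2] at h3
    exact h3
  · right
    rw [measure_eq_zero_iff_ae_notMem]
    filter_upwards [h1] with x hx hx'
    have h2 : (x ∈ C) = (x ∈ (Set.univ : Set X)) := hx hx'.1
    apply hx'.2
    rw [h2]
    exact mem_univ x

/-- **Every set of positive finite measure contains a set of positive measure whose rank one
projection is in the algebra.** -/
theorem exists_roB {A : Set X} (hA : MeasurableSet A) (hA0 : μ A ≠ 0) (hAf : μ A ≠ ∞) :
    ∃ (B : Set X) (hB : MeasurableSet B) (hf : μ B ≠ ∞), B ⊆ A ∧ μ B ≠ 0 ∧ roB hB hf ∈ Cu μ := by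
  obtain ⟨B, hBA, hB, hB0, S, hS, hgen, hmin⟩ := exists_minimal hA hA0
  have hf : μ B ≠ ∞ := ((measure_mono hBA).trans_lt (lt_top_iff_ne_top.2 hAf)).ne
  refine ⟨B, hB, hf, hBA, hB0, ?_⟩
  rcases lt_or_ge (#S) ℵ₀ with hfin | hinf
  · exact roB_mem_of_atom hB hf (atom_of_finite hB hB0 hS hgen hmin hfin)
  · haveI : IsFiniteMeasure (μ.restrict B) := ⟨by
      rw [Measure.restrict_apply_univ]
      exact lt_top_iff_ne_top.2 hf⟩
    obtain ⟨I, hlin, hI, a, h1, h2, h3⟩ := exists_bits (μ.restrict B) S hS hinf hgen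
      (fun S' h4 h5 => relAtomless_of_minimal hB hmin S' h4 h5)
    obtain ⟨W⟩ := walsh_of_bits (B := B) a hB hf h1 h2 h3
    exact roB_mem_of_walsh W hB hf hB0

theorem rich_Cu : RankOneRich (Cu μ) := rich_of_roB fun _ h1 h2 h3 => exists_roB h1 h2 h3

end Pool.Agent.Q196.MB
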