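import Pool.Agent.Q196.MB.Rich

/-!
# Left supports on finitely decomposable measure spaces
-/

namespace Pool.Agent.Q196.MB

open MeasureTheory Set
open scoped ENNReal NNReal

variable {X : Type*} {m0 : MeasurableSpace X} {μ : Measure X}

theorem chi_mul_eq_zero_iff {A : Set X} (hA : MeasurableSet A) (b : Lp ℂ 2 μ →L[ℂ] Lp ℂ 2 μ) :
    chi μ A * b = 0 ↔ ∀ h : Lp ℂ 2 μ, ∀ᵐ x ∂μ, x ∈ A → b h x = 0 := by
  constructor
  · intro h0 h
    have h1 : chi μ A (b h) = 0 := congrArg (fun T : Lp ℂ 2 μ →L[ℂ] Lp ℂ 2 μ => T h) h0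
    filter_upwards [coeFn_chi hA (b h), Lp.coeFn_zero ℂ 2 μ] with x h2 h3 hx
    rw [h1, h3, indicator_of_mem hx, one_mul] at h2
    exact h2.symm
  · intro h0
    ext1 h
    apply Lp.ext
    change (chi μ A (b h) : Lp ℂ 2 μ) =ᵐ[μ] ((0 : Lp ℂ 2 μ) : X → ℂ)
    filter_upwards [coeFn_chi hA (b h), Lp.coeFn_zero ℂ 2 μ, h0 h] with x h2 h3 h4
    rw [h2, h3]
    by_cases hx : x ∈ A
    · rw [h4 hx, mul_zero]
      rfl
    · rw [indicator_of_notMem hx, zero_mul]
      rfl

theorem chi_compl_mul {A : Set X} (hA : MeasurableSet A) (b : Lp ℂ 2 μ →L[ℂ] Lp ℂ 2 μ) :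
    chi μ Aᶜ * b = 0 ↔ chi μ A * b = b := by
  have h1 : chi μ A * b + chi μ Aᶜ * b = b := by
    ext1 h
    apply Lp.ext
    change (chi μ A (b h) + chi μ Aᶜ (b h) : Lp ℂ 2 μ) =ᵐ[μ] (b h : X → ℂ)
    filter_upwards [coeFn_chi hA (b h), coeFn_chi hA.compl (b h),
      Lp.coeFn_add (chi μ A (b h)) (chi μ Aᶜ (b h))] with x h2 h3 h4
    rw [h4, Pi.add_apply, h2, h3]
    by_cases hx : x ∈ A
    · simp [hx]
    · simp [hx]
  constructor
  · intro h
    rw [h, add_zero] at h1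
    exact h1
  · intro h
    rw [h] at h1
    exact left_eq_add.1 h1.symm

/-- Left supports exist on finitely decomposable measure spaces. -/
theorem exists_support {P : Set (Set X)} (hun : ⋃₀ P = univ)
    (hfin : ∀ s ∈ P, MeasurableSet s ∧ μ s < ∞)
    (hdisj : P.PairwiseDisjoint id)
    (hmeas : ∀ A, MeasurableSet A ↔ ∀ s ∈ P, MeasurableSet (A ∩ s))
    (hsum : ∀ A, MeasurableSet A → μ A = ∑' s : P, μ (A ∩ s))
    (b : Lp ℂ 2 μ →L[ℂ] Lp ℂ 2 μ) :
    ∃ S, MeasurableSet S ∧ chi μ S * b = b ∧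
      ∀ T, MeasurableSet T → chi μ T * b = b → μ (S \ T) = 0 := by
  classical
  have hch : ∀ s : P, ∃ T : Set X, T ⊆ s ∧ MeasurableSet T ∧ chi μ T * b = 0 ∧
      ∀ N : Set X, N ⊆ s → MeasurableSet N → chi μ N * b = 0 → μ (N \ T) = 0 := by
    intro s
    haveI : IsFiniteMeasure (μ.restrict s) := ⟨by
      rw [Measure.restrict_apply_univ]
      exact (hfin s s.2).2⟩
    obtain ⟨M, hM, hmax⟩ := exhaust (P := μ.restrict s)
      {T | T ⊆ s ∧ MeasurableSet T ∧ chi μ T * b = 0}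
      ⟨∅, empty_subset _, MeasurableSet.empty, by
        rw [chi_mul_eq_zero_iff MeasurableSet.empty]
        exact fun h => ae_of_all _ fun x hx => absurd hx (notMem_empty x)⟩ (by
        intro f _ hf
        have hfm : ∀ n, MeasurableSet (f n) := fun n => (hf n).2.1
        refine ⟨iUnion_subset fun n => (hf n).1, MeasurableSet.iUnion hfm, ?_⟩
        rw [chi_mul_eq_zero_iff (MeasurableSet.iUnion hfm)]
        intro h
        have h1 : ∀ᵐ x ∂μ, ∀ n, x ∈ f n → b h x = 0 := by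
          rw [ae_all_iff]
          exact fun n => (chi_mul_eq_zero_iff (hfm n) b).1 (hf n).2.2 h
        filter_upwards [h1] with x hx hx'
        obtain ⟨n, hn⟩ := mem_iUnion.1 hx'
        exact hx n hn)
    obtain ⟨hM1, hM2, hM3⟩ := hM
    refine ⟨M, hM1, hM2, hM3, fun N hN1 hN2 hN3 => ?_⟩
    have h1 := hmax (M ∪ N) ⟨union_subset hM1 hN1, hM2.union hN2, by
      rw [chi_mul_eq_zero_iff (hM2.union hN2)]
      intro h
      filter_upwards [(chi_mul_eq_zero_iff hM2 b).1 hM3 h, (chi_mul_eq_zero_iff hN2 b).1 hN3 h]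
        with x h1 h2 hx
      rcases hx with hx | hx
      · exact h1 hx
      · exact h2 hx⟩ subset_union_left
    have e1 : M ∪ N = M ∪ (N \ M) := by rw [union_diff_self]
    rw [e1, measure_union disjoint_sdiff_right (hN2.diff hM2)] at h1
    have hMf : (μ.restrict (s : Set X)) M ≠ ∞ := measure_ne_top _ _
    have h2 : (μ.restrict (s : Set X)) (N \ M) ≤ 0 := by
      have h3 : (μ.restrict (s : Set X)) M + (μ.restrict (s : Set X)) (N \ M)
          ≤ (μ.restrict (s : Set X)) M + 0 := by rwa [add_zero]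
      exact (ENNReal.add_le_add_iff_left hMf).1 h3
    have h4 : (μ.restrict (s : Set X)) (N \ M) = 0 := nonpos_iff_eq_zero.1 h2
    rw [Measure.restrict_apply (hN2.diff hM2), inter_eq_self_of_subset_left] at h4
    · exact h4
    · exact diff_subset.trans hN1
  choose T hT1 hT2 hT3 hT4 using hch
  have hinter : ∀ s : P, (⋃ t : P, T t) ∩ s = T s := by
    intro s
    ext x
    constructor
    · rintro ⟨hx, hxs⟩
      obtain ⟨t, ht⟩ := mem_iUnion.1 hx
      have : (t : Set X) = s := by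
        by_contra hne
        exact Set.disjoint_left.1 (hdisj t.2 s.2 hne) (hT1 t ht) hxs
      have h2 : t = s := Subtype.ext this
      rwa [← h2]
    · intro hx
      exact ⟨mem_iUnion.2 ⟨s, hx⟩, hT1 s hx⟩
  have hZm : MeasurableSet (⋃ t : P, T t) := by
    rw [hmeas]
    intro s hs
    rw [hinter ⟨s, hs⟩]
    exact hT2 _
  set Z := ⋃ t : P, T t with hZ
  have hnull : ∀ A, MeasurableSet A → (∀ s : P, μ (A ∩ s) = 0) → μ A = 0 := by
    intro A hA h
    rw [hsum A hA]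
    simp [h]
  refine ⟨Zᶜ, hZm.compl, ?_, ?_⟩
  · rw [← chi_compl_mul hZm.compl, compl_compl, chi_mul_eq_zero_iff hZm]
    intro h
    have hbm : StronglyMeasurable (b h : X → ℂ) := Lp.stronglyMeasurable _
    set W := Z ∩ {x | b h x ≠ 0} with hW
    have hWm : MeasurableSet W :=
      hZm.inter (hbm.measurable (measurableSet_singleton (0 : ℂ)).compl)
    have h1 : μ W = 0 := by
      apply hnull W hWm
      intro s
      have h2 : W ∩ s ⊆ T s ∩ {x | b h x ≠ 0} := by
        rintro x ⟨⟨hx, hx'⟩, hxs⟩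
        have : x ∈ Z ∩ (s : Set X) := ⟨hx, hxs⟩
        rw [hinter s] at this
        exact ⟨this, hx'⟩
      refine measure_mono_null h2 ?_
      rw [measure_eq_zero_iff_ae_notMem]
      filter_upwards [(chi_mul_eq_zero_iff (hT2 s) b).1 (hT3 s) h] with x hx hx'
      exact hx'.2 (hx hx'.1)
    have h3 : ∀ᵐ x ∂μ, x ∉ W := measure_eq_zero_iff_ae_notMem.1 h1
    filter_upwards [h3] with x hx hxZ
    by_contra hne
    exact hx ⟨hxZ, hne⟩
  · intro S hS hSb
    apply hnull _ (hZm.compl.diff hS)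
    intro s
    have hs := (hfin s s.2).1
    have h1 : chi μ (Sᶜ ∩ s) * b = 0 := by
      rw [chi_mul_eq_zero_iff (hS.compl.inter hs)]
      intro h
      filter_upwards [(chi_mul_eq_zero_iff hS.compl b).1 ((chi_compl_mul hS b).2 hSb) h] with x hx
      exact fun hx' => hx hx'.1
    have h2 := hT4 s (Sᶜ ∩ s) inter_subset_right (hS.compl.inter hs) h1
    refine measure_mono_null ?_ h2
    rintro x ⟨⟨hxZ, hxS⟩, hxs⟩
    exact ⟨⟨hxS, hxs⟩, fun h => hxZ (mem_iUnion.2 ⟨s, h⟩)⟩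

end Pool.Agent.Q196.MB
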