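import Pool.Agent.Q196.MB.Alg
import Pool.Agent.Q196.MB.Gap
import Pool.Agent.Q196.MB.Invol

/-!
# Walsh systems and rank one projections
-/

namespace Pool.Agent.Q196.MB

open MeasureTheory InnerProductSpace
open scoped ENNReal NNReal lp

variable {X : Type*} [MeasurableSpace X]

/-- A Walsh system on the set `B`: a group of `±1`-valued functions indexed by `I →₀ ZMod 2`,
with mean `0` on `B` except for the constant, and total in `L²(B)`. -/
structure WalshSystem (μ : Measure X) (B : Set X) (I : Type*) where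
  w : (I →₀ ZMod 2) → X → ℝ
  meas : ∀ γ, Measurable (w γ)
  sq : ∀ γ x, w γ x = 1 ∨ w γ x = -1
  zero : ∀ x, w 0 x = 1
  add : ∀ γ δ x, w (γ + δ) x = w γ x * w δ x
  mean : ∀ γ, γ ≠ 0 → ∫ x in B, w γ x ∂μ = 0
  dense : ∀ h : Lp ℂ 2 μ, (∀ γ, ∫ x in B, (w γ x : ℂ) * h x ∂μ = 0) → ∀ᵐ x ∂μ, x ∈ B → h x = 0

variable {μ : Measure X} {B : Set X} {I : Type*}

namespace WalshSystem

variable (W : WalshSystem μ B I)

/-- The Walsh functions restricted to `B`. -/
noncomputable def phi (γ : I →₀ ZMod 2) (x : X) : ℂ := B.indicator (fun x => (W.w γ x : ℂ)) x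

theorem abs_w (γ : I →₀ ZMod 2) (x : X) : ‖(W.w γ x : ℂ)‖ = 1 := by
  rcases W.sq γ x with h | h <;> rw [h] <;> simp

theorem bdd (hB : MeasurableSet B) (γ : I →₀ ZMod 2) : IsBddMeas (W.phi γ) := by
  refine ⟨(Complex.measurable_ofReal.comp (W.meas γ)).indicator hB, 1, fun x => ?_⟩
  rw [phi]
  by_cases hx : x ∈ B
  · rw [Set.indicator_of_mem hx, W.abs_w]
  · rw [Set.indicator_of_notMem hx, norm_zero]
    exact zero_le_one

theorem phi_mul (γ δ : I →₀ ZMod 2) (x : X) : W.phi γ x * W.phi δ x = W.phi (γ + δ) x := by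
  rw [phi, phi, phi]
  by_cases hx : x ∈ B
  · rw [Set.indicator_of_mem hx, Set.indicator_of_mem hx, Set.indicator_of_mem hx, W.add]
    push_cast
    ring
  · simp only [Set.indicator_of_notMem hx, zero_mul]

theorem phi_zero : W.phi 0 = B.indicator fun _ => 1 := by
  ext x
  rw [phi]
  by_cases hx : x ∈ B
  · rw [Set.indicator_of_mem hx, Set.indicator_of_mem hx, W.zero, Complex.ofReal_one]
  · rw [Set.indicator_of_notMem hx, Set.indicator_of_notMem hx]

theorem conj_phi (γ : I →₀ ZMod 2) (x : X) : (starRingEnd ℂ) (W.phi γ x) = W.phi γ x := by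
  rw [phi]
  by_cases hx : x ∈ B
  · rw [Set.indicator_of_mem hx, Complex.conj_ofReal]
  · rw [Set.indicator_of_notMem hx, map_zero]

/-- Multiplication by the Walsh functions. -/
noncomputable def M (γ : I →₀ ZMod 2) : Lp ℂ 2 μ →L[ℂ] Lp ℂ 2 μ := mulOp μ (W.phi γ)

variable {W}

theorem M_mul (hB : MeasurableSet B) (γ δ : I →₀ ZMod 2) : W.M γ * W.M δ = W.M (γ + δ) := by
  rw [M, M, mulOp_mul (W.bdd hB γ) (W.bdd hB δ), M]
  congr 1
  ext x
  exact W.phi_mul γ δ x

theorem M_zero : W.M 0 = chi μ B := by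
  rw [M, W.phi_zero, chi]

theorem star_M (hB : MeasurableSet B) (γ : I →₀ ZMod 2) : star (W.M γ) = W.M γ := by
  rw [M, star_mulOp (W.bdd hB γ)]
  congr 1
  ext x
  exact W.conj_phi γ x

theorem M_chi (hB : MeasurableSet B) (γ : I →₀ ZMod 2) : W.M γ * chi μ B = W.M γ := by
  rw [← M_zero (W := W), M_mul hB, add_zero]

theorem chi_M (hB : MeasurableSet B) (γ : I →₀ ZMod 2) : chi μ B * W.M γ = W.M γ := by
  rw [← M_zero (W := W), M_mul hB, zero_add]

theorem chi_comm_M (hB : MeasurableSet B) {C : Set X} (hC : MeasurableSet C) (γ : I →₀ ZMod 2) :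
    chi μ C * W.M γ = W.M γ * chi μ C := by
  rw [chi, M, mulOp_mul (isBddMeas_ind hC) (W.bdd hB γ), mulOp_mul (W.bdd hB γ) (isBddMeas_ind hC)]
  congr 1
  ext x
  exact mul_comm _ _

/-- The indicator function of `B` as a vector. -/
noncomputable def oneB (hB : MeasurableSet B) (hf : μ B ≠ ∞) : Lp ℂ 2 μ :=
  indicatorConstLp 2 hB hf (1 : ℂ)

theorem coeFn_M_oneB (hB : MeasurableSet B) (hf : μ B ≠ ∞) (γ : I →₀ ZMod 2) :
    (W.M γ (oneB hB hf) : Lp ℂ 2 μ) =ᵐ[μ] W.phi γ := by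
  filter_upwards [coeFn_mulOp (W.bdd hB γ) (oneB hB hf),
    indicatorConstLp_coeFn (p := 2) (hs := hB) (hμs := hf) (c := (1 : ℂ))] with x h1 h2
  rw [M, h1, oneB, h2, phi]
  by_cases hx : x ∈ B
  · rw [Set.indicator_of_mem hx, Set.indicator_of_mem hx, mul_one]
  · rw [Set.indicator_of_notMem hx, Set.indicator_of_notMem hx, mul_zero]

theorem inner_M_M (hB : MeasurableSet B) (hf : μ B ≠ ∞) (γ δ : I →₀ ZMod 2) :
    inner ℂ (W.M γ (oneB hB hf)) (W.M δ (oneB hB hf)) = ((∫ x in B, W.w (γ + δ) x ∂μ : ℝ) : ℂ) := by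
  have h1 : inner ℂ (W.M γ (oneB hB hf)) (W.M δ (oneB hB hf)) =
      inner ℂ (oneB hB hf) (W.M (γ + δ) (oneB hB hf)) := by
    rw [← M_mul hB, ContinuousLinearMap.mul_apply]
    conv_rhs => rw [← star_M hB γ]
    rw [ContinuousLinearMap.star_eq_adjoint, ContinuousLinearMap.adjoint_inner_right]
  rw [h1, oneB, L2.inner_indicatorConstLp_one, ← integral_complex_ofReal]
  apply setIntegral_congr_ae hB
  filter_upwards [coeFn_M_oneB hB hf (W := W) (γ + δ)] with x hx hxB
  rw [oneB] at hx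
  rw [hx, phi, Set.indicator_of_mem hxB]

/-- The normalizing constant. -/
noncomputable def cst (μ : Measure X) (B : Set X) : ℝ := (Real.sqrt (μ.real B))⁻¹

variable (W) in
/-- The orthonormal family of normalized Walsh functions. -/
noncomputable def e (hB : MeasurableSet B) (hf : μ B ≠ ∞) (γ : I →₀ ZMod 2) : Lp ℂ 2 μ :=
  (cst μ B : ℂ) • W.M γ (oneB hB hf)

theorem orthonormal_e (hB : MeasurableSet B) (hf : μ B ≠ ∞) (hp : μ B ≠ 0) :
    Orthonormal ℂ (W.e hB hf) := by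
  classical
  have hpos : 0 < μ.real B := ENNReal.toReal_pos hp hf
  rw [orthonormal_iff_ite]
  intro γ δ
  rw [e, e, inner_smul_left, inner_smul_right, inner_M_M, Complex.conj_ofReal]
  by_cases h : γ = δ
  · subst h
    have h2 : γ + γ = 0 := by
      ext i
      exact CharTwo.add_self_eq_zero _
    rw [if_pos rfl, h2]
    have h3 : ∫ x in B, W.w 0 x ∂μ = μ.real B := by
      simp [W.zero]
    rw [h3]
    norm_cast
    rw [cst, ← mul_assoc, ← mul_inv, Real.mul_self_sqrt hpos.le, inv_mul_cancel₀ hpos.ne']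
  · rw [if_neg h, W.mean _ ?_]
    · simp
    · intro h0
      apply h
      have h2 : γ + δ + δ = δ := by rw [h0, zero_add]
      rw [add_assoc] at h2
      have h3 : δ + δ = 0 := by
        ext i
        exact CharTwo.add_self_eq_zero _
      rwa [h3, add_zero] at h2

variable (W) in
/-- The isometry from `ℓ²`. -/
noncomputable def V (hB : MeasurableSet B) (hf : μ B ≠ ∞) (hp : μ B ≠ 0) :
    L2 (I →₀ ZMod 2) →ₗᵢ[ℂ] Lp ℂ 2 μ :=
  (orthonormal_e (W := W) hB hf hp).orthogonalFamily.linearIsometry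

theorem V_single [DecidableEq (I →₀ ZMod 2)] (hB : MeasurableSet B) (hf : μ B ≠ ∞) (hp : μ B ≠ 0)
    (γ : I →₀ ZMod 2) (c : ℂ) :
    W.V hB hf hp (lp.single 2 γ c) = c • W.e hB hf γ := by
  rw [V, OrthogonalFamily.linearIsometry_apply_single, LinearIsometry.toSpanSingleton_apply]

/-- The isometry from `ℓ²`, as a bounded operator. -/
noncomputable def Vc (W : WalshSystem μ B I) (hB : MeasurableSet B) (hf : μ B ≠ ∞)
    (hp : μ B ≠ 0) : L2 (I →₀ ZMod 2) →L[ℂ] Lp ℂ 2 μ :=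
  (W.V hB hf hp).toContinuousLinearMap

/-- The adjoint. -/
noncomputable def Vs (W : WalshSystem μ B I) (hB : MeasurableSet B) (hf : μ B ≠ ∞)
    (hp : μ B ≠ 0) : Lp ℂ 2 μ →L[ℂ] L2 (I →₀ ZMod 2) :=
  ContinuousLinearMap.adjoint (W.Vc hB hf hp)

section

variable (hB : MeasurableSet B) (hf : μ B ≠ ∞) (hp : μ B ≠ 0)

theorem Vc_single [DecidableEq (I →₀ ZMod 2)] (γ : I →₀ ZMod 2) (c : ℂ) :
    W.Vc hB hf hp (lp.single 2 γ c) = c • W.e hB hf γ := V_single hB hf hp γ c

theorem Vs_Vc (f : L2 (I →₀ ZMod 2)) : W.Vs hB hf hp (W.Vc hB hf hp f) = f := by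
  have h := (ContinuousLinearMap.norm_map_iff_adjoint_comp_self (W.Vc hB hf hp)).1
    (fun x => (W.V hB hf hp).norm_map x)
  exact congrArg (fun T : L2 (I →₀ ZMod 2) →L[ℂ] L2 (I →₀ ZMod 2) => T f) h

theorem chi_e (γ : I →₀ ZMod 2) : chi μ B (W.e hB hf γ) = W.e hB hf γ := by
  rw [e, map_smul]
  congr 1
  exact congrArg (fun T : Lp ℂ 2 μ →L[ℂ] Lp ℂ 2 μ => T (oneB hB hf)) (chi_M hB γ)

theorem ext_Vc {E : Type*} [NormedAddCommGroup E] [NormedSpace ℂ E] {S T : Lp ℂ 2 μ →L[ℂ] E}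
    (h : ∀ γ, S (W.e hB hf γ) = T (W.e hB hf γ)) (f : L2 (I →₀ ZMod 2)) :
    S (W.Vc hB hf hp f) = T (W.Vc hB hf hp f) := by
  classical
  have hs := lp.hasSum_single (by norm_num : (2 : ℝ≥0∞) ≠ ∞) f
  have h1 := (S.comp (W.Vc hB hf hp)).hasSum hs
  have h2 := (T.comp (W.Vc hB hf hp)).hasSum hs
  have h3 : (fun γ => (S.comp (W.Vc hB hf hp)) (lp.single 2 γ (f γ))) =
      fun γ => (T.comp (W.Vc hB hf hp)) (lp.single 2 γ (f γ)) := by
    ext γ
    rw [ContinuousLinearMap.comp_apply, ContinuousLinearMap.comp_apply, Vc_single, map_smul,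
      map_smul, h]
  rw [h3] at h1
  exact h1.unique h2

theorem Vc_Vs (h : Lp ℂ 2 μ) : W.Vc hB hf hp (W.Vs hB hf hp h) = chi μ B h := by
  classical
  set k : Lp ℂ 2 μ := chi μ B h - W.Vc hB hf hp (W.Vs hB hf hp h) with hk
  have hchi : chi μ B (W.Vc hB hf hp (W.Vs hB hf hp h)) = W.Vc hB hf hp (W.Vs hB hf hp h) := by
    have := ext_Vc hB hf hp (W := W) (S := chi μ B) (T := 1) (fun γ => by
      rw [chi_e, ContinuousLinearMap.one_apply]) (W.Vs hB hf hp h)
    rw [this, ContinuousLinearMap.one_apply]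
  have hk1 : chi μ B k = k := by
    rw [hk, map_sub, hchi]
    congr 1
    have := chi_mul_chi (μ := μ) hB hB
    rw [Set.inter_self] at this
    exact congrArg (fun T : Lp ℂ 2 μ →L[ℂ] Lp ℂ 2 μ => T h) this
  have hin : ∀ γ, inner ℂ (W.e hB hf γ) k = 0 := by
    intro γ
    rw [hk, inner_sub_right]
    have e1 : inner ℂ (W.e hB hf γ) (chi μ B h) = inner ℂ (W.e hB hf γ) h := by
      conv_rhs => rw [← chi_e hB hf γ]
      rw [← ContinuousLinearMap.adjoint_inner_right, ← ContinuousLinearMap.star_eq_adjoint,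
        star_chi hB]
    have e2 : inner ℂ (W.e hB hf γ) (W.Vc hB hf hp (W.Vs hB hf hp h))
        = inner ℂ (W.e hB hf γ) h := by
      have g1 : W.Vs hB hf hp (W.e hB hf γ) = lp.single 2 γ 1 := by
        have := Vc_single hB hf hp (W := W) γ 1
        rw [one_smul] at this
        rw [← this, Vs_Vc]
      rw [← ContinuousLinearMap.adjoint_inner_left]
      change inner ℂ (W.Vs hB hf hp (W.e hB hf γ)) _ = _
      rw [g1]
      have g2 : inner ℂ (lp.single 2 γ (1 : ℂ)) (W.Vs hB hf hp h)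
          = inner ℂ (W.Vc hB hf hp (lp.single 2 γ (1 : ℂ))) h := by
        rw [Vs, ContinuousLinearMap.adjoint_inner_right]
      rw [g2, Vc_single, one_smul]
    rw [e1, e2, sub_self]
  have hk0 : k = 0 := by
    have hint : ∀ γ, ∫ x in B, (W.w γ x : ℂ) * k x ∂μ = 0 := by
      intro γ
      have h1 : inner ℂ (W.M γ (oneB hB hf)) k = 0 := by
        have h2 := hin γ
        rw [e, inner_smul_left, mul_eq_zero] at h2
        rcases h2 with h2 | h2
        · exfalso
          rw [Complex.conj_ofReal, Complex.ofReal_eq_zero, cst, inv_eq_zero,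
            Real.sqrt_eq_zero measureReal_nonneg] at h2
          exact (ENNReal.toReal_pos hp hf).ne' h2
        · exact h2
      rw [← ContinuousLinearMap.adjoint_inner_right, ← ContinuousLinearMap.star_eq_adjoint,
        star_M hB, oneB, L2.inner_indicatorConstLp_one] at h1
      rw [← h1]
      apply setIntegral_congr_ae hB
      filter_upwards [coeFn_mulOp (W.bdd hB γ) k] with x hx hxB
      rw [M, hx, phi, Set.indicator_of_mem hxB]
    have h3 := W.dense k hint
    rw [← hk1]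
    apply Lp.ext
    filter_upwards [coeFn_chi hB k, h3, Lp.coeFn_zero ℂ 2 μ] with x h4 h5 h6
    rw [h4, h6]
    by_cases hx : x ∈ B
    · rw [h5 hx, mul_zero]
      rfl
    · rw [Set.indicator_of_notMem hx, zero_mul]
      rfl
  exact (sub_eq_zero.1 hk0).symm

/-- Two operators that vanish off `B` and agree on the Walsh functions are equal. -/
theorem ext_e {S T : Lp ℂ 2 μ →L[ℂ] Lp ℂ 2 μ} (hS : S * chi μ B = S) (hT : T * chi μ B = T)
    (h : ∀ γ, S (W.e hB hf γ) = T (W.e hB hf γ)) (hp : μ B ≠ 0) : S = T := by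
  rw [← hS, ← hT]
  ext1 v
  rw [ContinuousLinearMap.mul_apply, ContinuousLinearMap.mul_apply, ← Vc_Vs hB hf hp (W := W)]
  exact ext_Vc hB hf hp h _

end

end WalshSystem

end Pool.Agent.Q196.MB
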