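import Pool.Agent.Q196.MB.Walsh

/-!
# The operators of the automorphisms of a Walsh system
-/

namespace Pool.Agent.Q196.MB

open MeasureTheory InnerProductSpace
open scoped ENNReal NNReal lp

variable {X : Type*} [MeasurableSpace X]

variable {μ : Measure X} {B : Set X} {I : Type*}

namespace WalshSystem

variable (W : WalshSystem μ B I) (hB : MeasurableSet B) (hf : μ B ≠ ∞) (hp : μ B ≠ 0)

/-- Transport of an operator on `ℓ²` to `L²(X, μ)`. -/
noncomputable def tr (S : L2 (I →₀ ZMod 2) →L[ℂ] L2 (I →₀ ZMod 2)) : Lp ℂ 2 μ →L[ℂ] Lp ℂ 2 μ :=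
  (W.Vc hB hf hp).comp (S.comp (W.Vs hB hf hp))

theorem tr_apply (S : L2 (I →₀ ZMod 2) →L[ℂ] L2 (I →₀ ZMod 2)) (h : Lp ℂ 2 μ) :
    W.tr hB hf hp S h = W.Vc hB hf hp (S (W.Vs hB hf hp h)) := rfl

theorem tr_mul (S T : L2 (I →₀ ZMod 2) →L[ℂ] L2 (I →₀ ZMod 2)) :
    W.tr hB hf hp (S * T) = W.tr hB hf hp S * W.tr hB hf hp T := by
  ext1 h
  rw [ContinuousLinearMap.mul_apply, tr_apply, tr_apply, tr_apply, Vs_Vc]
  rfl

theorem tr_add (S T : L2 (I →₀ ZMod 2) →L[ℂ] L2 (I →₀ ZMod 2)) :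
    W.tr hB hf hp (S + T) = W.tr hB hf hp S + W.tr hB hf hp T := by
  ext1 h
  rw [ContinuousLinearMap.add_apply, tr_apply, tr_apply, tr_apply, ContinuousLinearMap.add_apply,
    map_add]

theorem tr_smul (c : ℂ) (T : L2 (I →₀ ZMod 2) →L[ℂ] L2 (I →₀ ZMod 2)) :
    W.tr hB hf hp (c • T) = c • W.tr hB hf hp T := by
  ext1 h
  rw [ContinuousLinearMap.smul_apply, tr_apply, tr_apply, ContinuousLinearMap.smul_apply,
    map_smul]

theorem tr_one : W.tr hB hf hp 1 = chi μ B := by
  ext1 h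
  rw [tr_apply, ContinuousLinearMap.one_apply, Vc_Vs]

theorem star_tr (S : L2 (I →₀ ZMod 2) →L[ℂ] L2 (I →₀ ZMod 2)) :
    star (W.tr hB hf hp S) = W.tr hB hf hp (star S) := by
  rw [ContinuousLinearMap.star_eq_adjoint, ContinuousLinearMap.star_eq_adjoint, tr, tr,
    ContinuousLinearMap.adjoint_comp, ContinuousLinearMap.adjoint_comp, Vs,
    ContinuousLinearMap.adjoint_adjoint]
  rfl

theorem continuous_tr : Continuous (W.tr hB hf hp) := by
  unfold tr
  fun_prop

theorem tr_chi (S : L2 (I →₀ ZMod 2) →L[ℂ] L2 (I →₀ ZMod 2)) :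
    W.tr hB hf hp S * chi μ B = W.tr hB hf hp S := by
  rw [← tr_one W hB hf hp, ← tr_mul, mul_one]

theorem chi_tr (S : L2 (I →₀ ZMod 2) →L[ℂ] L2 (I →₀ ZMod 2)) :
    chi μ B * W.tr hB hf hp S = W.tr hB hf hp S := by
  rw [← tr_one W hB hf hp, ← tr_mul, one_mul]

theorem Vs_e [DecidableEq (I →₀ ZMod 2)] (γ : I →₀ ZMod 2) :
    W.Vs hB hf hp (W.e hB hf γ) = lp.single 2 γ 1 := by
  have := Vc_single hB hf hp (W := W) γ 1
  rw [one_smul] at this
  rw [← this, Vs_Vc]

/-- The operator of a permutation of the index group. -/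
noncomputable def U (g : Equiv.Perm (I →₀ ZMod 2)) : Lp ℂ 2 μ →L[ℂ] Lp ℂ 2 μ :=
  W.tr hB hf hp (perm g)

theorem U_e (g : Equiv.Perm (I →₀ ZMod 2)) (γ : I →₀ ZMod 2) :
    W.U hB hf hp g (W.e hB hf γ) = W.e hB hf (g γ) := by
  classical
  rw [U, tr_apply, Vs_e, perm_single, Vc_single, one_smul]

theorem U_mul (g h : Equiv.Perm (I →₀ ZMod 2)) :
    W.U hB hf hp g * W.U hB hf hp h = W.U hB hf hp (g * h) := by
  rw [U, U, U, perm_mul, tr_mul]

theorem star_U (g : Equiv.Perm (I →₀ ZMod 2)) :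
    star (W.U hB hf hp g) = W.U hB hf hp g⁻¹ := by
  rw [U, U, star_tr, star_perm]

theorem M_e (γ δ : I →₀ ZMod 2) : W.M γ (W.e hB hf δ) = W.e hB hf (γ + δ) := by
  rw [e, e, map_smul]
  congr 1
  exact congrArg (fun T : Lp ℂ 2 μ →L[ℂ] Lp ℂ 2 μ => T (oneB hB hf)) (M_mul hB γ δ)

theorem M_U (g : (I →₀ ZMod 2) ≃+ (I →₀ ZMod 2)) (γ : I →₀ ZMod 2) :
    W.M (g γ) * W.U hB hf hp g.toEquiv = W.U hB hf hp g.toEquiv * W.M γ := by
  refine ext_e (W := W) hB hf ?_ ?_ (fun δ => ?_) hp
  · rw [mul_assoc, U, tr_chi]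
  · rw [mul_assoc, M_chi hB]
  · rw [ContinuousLinearMap.mul_apply, ContinuousLinearMap.mul_apply, U_e, M_e, M_e, U_e]
    change W.e hB hf (g γ + g δ) = W.e hB hf (g (γ + δ))
    rw [map_add]

theorem norm_U_le (g : Equiv.Perm (I →₀ ZMod 2)) (h : Lp ℂ 2 μ) : ‖W.U hB hf hp g h‖ ≤ ‖h‖ := by
  have h1 : ‖W.U hB hf hp g h‖ = ‖W.Vs hB hf hp h‖ := by
    rw [U, tr_apply]
    exact ((W.V hB hf hp).norm_map _).trans (norm_perm _ _)
  have h2 : ‖W.Vs hB hf hp h‖ ^ 2 ≤ ‖h‖ * ‖W.Vs hB hf hp h‖ := by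
    have e1 : ((‖W.Vs hB hf hp h‖ : ℂ)) ^ 2 = inner ℂ (W.Vs hB hf hp h) (W.Vs hB hf hp h) := by
      rw [inner_self_eq_norm_sq_to_K]
      rfl
    have e2 : inner ℂ (W.Vs hB hf hp h) (W.Vs hB hf hp h)
        = inner ℂ h (W.Vc hB hf hp (W.Vs hB hf hp h)) := by
      conv_lhs => rw [Vs, ContinuousLinearMap.adjoint_inner_left]
      rfl
    have e3 : ‖inner ℂ h (W.Vc hB hf hp (W.Vs hB hf hp h))‖ ≤ ‖h‖ * ‖W.Vs hB hf hp h‖ := by
      refine (norm_inner_le_norm _ _).trans (le_of_eq ?_)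
      congr 1
      exact (W.V hB hf hp).norm_map _
    rw [← e2, ← e1, norm_pow, Complex.norm_real, norm_norm] at e3
    exact e3
  rw [h1]
  rcases (norm_nonneg (W.Vs hB hf hp h)).eq_or_lt with h3 | h3
  · rw [← h3]
    exact norm_nonneg _
  · rw [_root_.sq] at h2
    exact le_of_mul_le_mul_right h2 h3

/-- **The operators of additive automorphisms have bounded support expansion.** -/
theorem expands_U (g : (I →₀ ZMod 2) ≃+ (I →₀ ZMod 2)) :
    Expands μ 1 (W.U hB hf hp g.toEquiv) := by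
  intro Q hQ
  set C := Q ∩ B with hC
  have hCm : MeasurableSet C := hQ.inter hB
  set Ug := W.U hB hf hp g.toEquiv with hUg
  set Ug' := W.U hB hf hp g.symm.toEquiv with hUg'
  have hUU' : Ug' * Ug = chi μ B := by
    rw [hUg, hUg', U_mul]
    have : (g.symm.toEquiv * g.toEquiv : Equiv.Perm (I →₀ ZMod 2)) = 1 := by
      ext1 γ
      exact g.symm_apply_apply γ
    rw [this, U, perm_one, tr_one]
  set E := Ug * chi μ C * Ug' with hE
  set u := Ug (chi μ C (oneB hB hf)) with hu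
  have hEe : ∀ γ, E (W.e hB hf γ) = (cst μ B : ℂ) • W.M γ u := by
    intro γ
    have h1 : Ug' (W.e hB hf γ) = W.e hB hf (g.symm γ) := U_e W hB hf hp _ _
    rw [hE, ContinuousLinearMap.mul_apply, ContinuousLinearMap.mul_apply, h1, e, map_smul,
      map_smul]
    congr 1
    have h2 : chi μ C (W.M (g.symm γ) (oneB hB hf)) = W.M (g.symm γ) (chi μ C (oneB hB hf)) :=
      congrArg (fun T : Lp ℂ 2 μ →L[ℂ] Lp ℂ 2 μ => T (oneB hB hf)) (chi_comm_M hB hCm _)
    rw [h2]
    have h3 := M_U W hB hf hp g (g.symm γ)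
    rw [g.apply_symm_apply] at h3
    exact (congrArg (fun T : Lp ℂ 2 μ →L[ℂ] Lp ℂ 2 μ => T (chi μ C (oneB hB hf))) h3).symm
  have hEchi : E * chi μ B = E := by
    rw [hE, mul_assoc, hUg', U, tr_chi]
  have humeas : StronglyMeasurable (u : X → ℂ) := Lp.stronglyMeasurable u
  -- `E` is the multiplication by `u`
  have hmul : ∀ h : Lp ℂ 2 μ, (E h : Lp ℂ 2 μ) =ᵐ[μ] fun x => u x * h x := by
    intro h
    have hN : ∀ N : ℕ, ∀ᵐ x ∂μ, ‖u x‖ ≤ N → E h x = u x * h x := by
      intro N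
      set S := {x | ‖u x‖ ≤ N} with hS
      have hSm : MeasurableSet S := by
        exact measurableSet_le humeas.norm.measurable measurable_const
      set ψ : X → ℂ := S.indicator u with hψ
      have hψb : IsBddMeas ψ := by
        refine ⟨humeas.measurable.indicator hSm, N, fun x => ?_⟩
        by_cases hx : x ∈ S
        · rw [hψ, Set.indicator_of_mem hx]
          exact hx
        · rw [hψ, Set.indicator_of_notMem hx, norm_zero]
          positivity
      have hop : chi μ S * E = mulOp μ ψ * chi μ B := by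
        refine ext_e (W := W) hB hf ?_ ?_ (fun γ => ?_) hp
        · rw [mul_assoc, hEchi]
        · rw [mul_assoc, chi_mul_chi hB hB, Set.inter_self]
        · change chi μ S (E (W.e hB hf γ)) = mulOp μ ψ (chi μ B (W.e hB hf γ))
          rw [hEe, chi_e]
          rw [e, map_smul, map_smul]
          congr 1
          apply Lp.ext
          filter_upwards [coeFn_chi hSm (W.M γ u), coeFn_mulOp (W.bdd hB γ) u,
            coeFn_mulOp hψb (W.M γ (oneB hB hf)), coeFn_M_oneB hB hf (W := W) γ]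
            with x h1 h2 h3 h4
          rw [h1, h3, h4, M, h2]
          by_cases hx : x ∈ S
          · rw [hψ, Set.indicator_of_mem hx, Set.indicator_of_mem hx]
            ring
          · rw [hψ, Set.indicator_of_notMem hx, Set.indicator_of_notMem hx]
            ring
      have hchiu : ∀ᵐ x ∂μ, x ∉ B → u x = 0 := by
        have : chi μ B u = u := by
          rw [hu, hUg]
          exact congrArg (fun T : Lp ℂ 2 μ →L[ℂ] Lp ℂ 2 μ => T (chi μ C (oneB hB hf)))
            (chi_tr W hB hf hp (perm g.toEquiv))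
        filter_upwards [coeFn_chi hB u] with x hx hxB
        rw [this, Set.indicator_of_notMem hxB, zero_mul] at hx
        exact hx
      have h5 := congrArg (fun T : Lp ℂ 2 μ →L[ℂ] Lp ℂ 2 μ => T h) hop
      simp only [ContinuousLinearMap.mul_apply] at h5
      filter_upwards [coeFn_chi hSm (E h), coeFn_mulOp hψb (chi μ B h), coeFn_chi hB h, hchiu]
        with x h1 h2 h3 h4 hx
      rw [← h5, h1, h3] at h2
      have hxS : x ∈ S := hx
      rw [Set.indicator_of_mem hxS, one_mul, hψ, Set.indicator_of_mem hxS] at h2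
      rw [h2]
      by_cases hxB : x ∈ B
      · rw [Set.indicator_of_mem hxB, one_mul]
      · rw [h4 hxB, zero_mul, zero_mul]
    rw [← ae_all_iff] at hN
    filter_upwards [hN] with x hx
    obtain ⟨N, hN⟩ := exists_nat_ge ‖u x‖
    exact hx N hN
  have hEone : E (oneB hB hf) = u := by
    have h1 : Ug' (oneB hB hf) = oneB hB hf := by
      have h2 := U_e W hB hf hp g.symm.toEquiv 0
      have h3 : g.symm.toEquiv 0 = 0 := g.symm.map_zero
      rw [h3, e, map_smul, M_zero] at h2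
      have hc : (cst μ B : ℂ) ≠ 0 := by
        rw [Complex.ofReal_ne_zero, cst]
        exact inv_ne_zero (Real.sqrt_ne_zero'.2 (ENNReal.toReal_pos hp hf))
      have h4 := smul_right_injective _ hc h2
      have h5 : chi μ B (oneB hB hf) = oneB hB hf := by
        apply Lp.ext
        filter_upwards [coeFn_chi hB (oneB hB hf),
          indicatorConstLp_coeFn (p := 2) (hs := hB) (hμs := hf) (c := (1 : ℂ))] with x h1 h2
        rw [h1, oneB, h2]
        by_cases hx : x ∈ B
        · rw [Set.indicator_of_mem hx, mul_one]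
        · rw [Set.indicator_of_notMem hx, mul_zero]
      rw [h5] at h4
      exact h4
    rw [hE, ContinuousLinearMap.mul_apply, ContinuousLinearMap.mul_apply, h1]
  have hCB : chi μ C * chi μ B = chi μ C := by
    rw [chi_mul_chi hCm hB, hC, Set.inter_assoc, Set.inter_self]
  have hEE : E * E = E := by
    calc E * E = Ug * chi μ C * (Ug' * Ug) * chi μ C * Ug' := by simp only [hE, mul_assoc]
      _ = Ug * (chi μ C * chi μ B) * chi μ C * Ug' := by simp only [hUU', mul_assoc]
      _ = Ug * (chi μ C * chi μ C) * Ug' := by rw [hCB, mul_assoc Ug]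
      _ = E := by rw [chi_mul_chi hCm hCm, Set.inter_self]
  have hEu : E u = u := by
    have h1 := congrArg (fun T : Lp ℂ 2 μ →L[ℂ] Lp ℂ 2 μ => T (oneB hB hf)) hEE
    simp only [ContinuousLinearMap.mul_apply] at h1
    rwa [hEone] at h1
  have hu01 : ∀ᵐ x ∂μ, u x = 0 ∨ u x = 1 := by
    have h1 := hmul u
    rw [hEu] at h1
    filter_upwards [h1] with x hx
    have : u x * (u x - 1) = 0 := by rw [mul_sub, ← hx, mul_one, sub_self]
    rcases mul_eq_zero.1 this with h | h
    · left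
      exact h
    · right
      exact sub_eq_zero.1 h
  set S := {x | u x = 1} with hS
  have hSm : MeasurableSet S := humeas.measurable (measurableSet_singleton 1)
  have hind : (u : X → ℂ) =ᵐ[μ] S.indicator fun _ => 1 := by
    filter_upwards [hu01] with x hx
    rcases hx with h | h
    · rw [Set.indicator_of_notMem, h]
      intro h'
      rw [hS, Set.mem_setOf_eq, h] at h'
      exact zero_ne_one h'
    · rw [Set.indicator_of_mem, h]
      exact h
  refine ⟨S, ⟨hSm, ?_⟩, ?_⟩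
  · have h1 : Ug * chi μ Q = E * Ug := by
      calc Ug * chi μ Q = Ug * chi μ B * chi μ Q := by rw [hUg, U, tr_chi]
        _ = Ug * chi μ C := by rw [mul_assoc, chi_mul_chi hB hQ, Set.inter_comm]
        _ = Ug * (chi μ C * chi μ B) := by rw [hCB]
        _ = E * Ug := by rw [← hUU', hE]; simp only [mul_assoc]
    rw [h1]
    ext1 v
    rw [ContinuousLinearMap.mul_apply, ContinuousLinearMap.mul_apply]
    apply Lp.ext
    filter_upwards [coeFn_chi hSm (E (Ug v)), hmul (Ug v), hind] with x h2 h3 h4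
    rw [h2, h3, h4]
    by_cases hx : x ∈ S
    · rw [Set.indicator_of_mem hx]
      ring
    · rw [Set.indicator_of_notMem hx]
      ring
  · have h1 : μ S ≤ μ C := by
      have e1 : ‖u‖ ≤ ‖chi μ C (oneB hB hf)‖ := norm_U_le W hB hf hp _ _
      have e2 : eLpNorm (u : X → ℂ) 2 μ ≤ eLpNorm (chi μ C (oneB hB hf) : Lp ℂ 2 μ) 2 μ := by
        rw [Lp.norm_def, Lp.norm_def] at e1
        exact (ENNReal.toReal_le_toReal (Lp.eLpNorm_ne_top _) (Lp.eLpNorm_ne_top _)).1 e1
      have e3 : (chi μ C (oneB hB hf) : Lp ℂ 2 μ) =ᵐ[μ] C.indicator fun _ => (1 : ℂ) := by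
        filter_upwards [coeFn_chi hCm (oneB hB hf),
          indicatorConstLp_coeFn (p := 2) (hs := hB) (hμs := hf) (c := (1 : ℂ))] with x h1 h2
        rw [h1, oneB, h2]
        by_cases hx : x ∈ C
        · rw [Set.indicator_of_mem hx, Set.indicator_of_mem hx.2, mul_one]
        · rw [Set.indicator_of_notMem hx, zero_mul]
      rw [eLpNorm_congr_ae hind, eLpNorm_congr_ae e3,
        eLpNorm_indicator_const hSm (by norm_num) (by norm_num),
        eLpNorm_indicator_const hCm (by norm_num) (by norm_num)] at e2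
      simp only [enorm_one, one_mul] at e2
      exact (ENNReal.rpow_le_rpow_iff (by norm_num)).1 e2
    calc μ S ≤ μ C := h1
      _ ≤ μ Q := measure_mono Set.inter_subset_left
      _ = ((1 : ℝ≥0) : ℝ≥0∞) * μ Q := by simp

end WalshSystem

end Pool.Agent.Q196.MB
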